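import Pool.Agent.Crg.Defs

set_option autoImplicit false

namespace Pool.Agent.Crg

open scoped BigOperators
open Finset

section
open Classical

theorem mat_symm {V : Type} (K : CRG V) (p : ℝ) (i j : V) : mat K p i j = mat K p j i := by
  unfold mat
  by_cases h : i = j
  · subst h; rfl
  · rw [if_neg h, if_neg (Ne.symm h), K.symm i j]

theorem mat_nonneg {V : Type} (K : CRG V) {p : ℝ} (h0 : 0 ≤ p) (h1 : p ≤ 1) (i j : V) :
    0 ≤ mat K p i j := by
  unfold mat
  split_ifs <;> linarith

theorem mat_le {V : Type} (K : CRG V) {p : ℝ} (h1 : p ≤ 1 / 2) (i j : V) :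
    mat K p i j ≤ 1 - p := by
  unfold mat
  split_ifs <;> linarith

/-- bilinear form -/
noncomputable def bil {V : Type} [Fintype V] (K : CRG V) (p : ℝ) (u v : V → ℝ) : ℝ :=
  ∑ i, ∑ j, u i * mat K p i j * v j

theorem form_eq_bil {V : Type} [Fintype V] (K : CRG V) (p : ℝ) (u : V → ℝ) :
    form K p u = bil K p u u := rfl

theorem bil_symm {V : Type} [Fintype V] (K : CRG V) (p : ℝ) (u v : V → ℝ) :
    bil K p u v = bil K p v u := by
  unfold bil
  rw [Finset.sum_comm]
  refine Finset.sum_congr rfl fun i _ => Finset.sum_congr rfl fun j _ => ?_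
  rw [mat_symm K p j i]; ring

theorem bil_add_left {V : Type} [Fintype V] (K : CRG V) (p : ℝ) (u u' v : V → ℝ) :
    bil K p (u + u') v = bil K p u v + bil K p u' v := by
  unfold bil
  rw [← Finset.sum_add_distrib]
  refine Finset.sum_congr rfl fun i _ => ?_
  rw [← Finset.sum_add_distrib]
  refine Finset.sum_congr rfl fun j _ => ?_
  simp only [Pi.add_apply]; ring

theorem bil_smul_left {V : Type} [Fintype V] (K : CRG V) (p t : ℝ) (u v : V → ℝ) :
    bil K p (t • u) v = t * bil K p u v := by
  unfold bil
  rw [Finset.mul_sum]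
  refine Finset.sum_congr rfl fun i _ => ?_
  rw [Finset.mul_sum]
  refine Finset.sum_congr rfl fun j _ => ?_
  simp only [Pi.smul_apply, smul_eq_mul]; ring

theorem bil_add_right {V : Type} [Fintype V] (K : CRG V) (p : ℝ) (u v v' : V → ℝ) :
    bil K p u (v + v') = bil K p u v + bil K p u v' := by
  rw [bil_symm, bil_add_left, bil_symm K p v, bil_symm K p v']

theorem bil_smul_right {V : Type} [Fintype V] (K : CRG V) (p t : ℝ) (u v : V → ℝ) :
    bil K p u (t • v) = t * bil K p u v := by
  rw [bil_symm, bil_smul_left, bil_symm]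

theorem form_add_smul {V : Type} [Fintype V] (K : CRG V) (p t : ℝ) (x w : V → ℝ) :
    form K p (x + t • w) = form K p x + 2 * t * bil K p w x + t ^ 2 * form K p w := by
  simp only [form_eq_bil, bil_add_left, bil_add_right, bil_smul_left, bil_smul_right]
  rw [bil_symm K p x w]; ring

/-- the row sums `(M x)_i` -/
noncomputable def row {V : Type} [Fintype V] (K : CRG V) (p : ℝ) (x : V → ℝ) (i : V) : ℝ :=
  ∑ j, mat K p i j * x j

theorem bil_eq_row {V : Type} [Fintype V] (K : CRG V) (p : ℝ) (w x : V → ℝ) :
    bil K p w x = ∑ i, w i * row K p x i := by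
  unfold bil row
  refine Finset.sum_congr rfl fun i _ => ?_
  rw [Finset.mul_sum]
  refine Finset.sum_congr rfl fun j _ => ?_
  ring

theorem form_nonneg {V : Type} [Fintype V] (K : CRG V) {p : ℝ} (h0 : 0 ≤ p) (h1 : p ≤ 1)
    {x : V → ℝ} (hx : ∀ i, 0 ≤ x i) : 0 ≤ form K p x := by
  unfold form
  refine Finset.sum_nonneg fun i _ => Finset.sum_nonneg fun j _ => ?_
  exact mul_nonneg (mul_nonneg (hx i) (mat_nonneg K h0 h1 i j)) (hx j)

/-- probability vectors -/
def Simp {V : Type} [Fintype V] (u : V → ℝ) : Prop := (∀ i, 0 ≤ u i) ∧ ∑ i, u i = 1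

/-- restriction of a CRG to a set of vertices -/
def CRG.restrict {V : Type} (K : CRG V) (P : V → Prop) : CRG {v // P v} where
  black v := K.black v.1
  col u v := K.col u.1 v.1
  symm u v := K.symm u.1 v.1

/-- pull-back of a CRG under a map -/
def CRG.comap {V V' : Type} (K : CRG V) (f : V' → V) : CRG V' where
  black v := K.black (f v)
  col u v := K.col (f u) (f v)
  symm u v := K.symm (f u) (f v)

theorem avoids_comap {W V V' : Type} {H : SimpleGraph W} {K : CRG V} {f : V' → V}
    (hf : Function.Injective f) (h : Avoids H K) : Avoids H (K.comap f) := by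
  rintro ⟨φ, hφ⟩
  refine h ⟨f ∘ φ, fun u v huv => ?_⟩
  obtain ⟨h1, h2⟩ := hφ u v huv
  constructor
  · intro ha
    rcases h1 ha with ⟨e, hb⟩ | ⟨e, hc⟩
    · exact Or.inl ⟨congrArg f e, hb⟩
    · exact Or.inr ⟨fun e' => e (hf e'), hc⟩
  · intro ha
    rcases h2 ha with ⟨e, hb⟩ | ⟨e, hc⟩
    · exact Or.inl ⟨congrArg f e, hb⟩
    · exact Or.inr ⟨fun e' => e (hf e'), hc⟩

theorem avoids_restrict {W V : Type} {H : SimpleGraph W} {K : CRG V} (P : V → Prop)
    (h : Avoids H K) : Avoids H (K.restrict P) :=
  avoids_comap (f := Subtype.val) Subtype.val_injective h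

theorem mat_comap {V V' : Type} (K : CRG V) {f : V' → V} (hf : Function.Injective f) (p : ℝ)
    (i j : V') : mat (K.comap f) p i j = mat K p (f i) (f j) := by
  unfold mat
  by_cases h : i = j
  · subst h; rw [if_pos rfl, if_pos rfl]; rfl
  · have : f i ≠ f j := fun e => h (hf e)
    rw [if_neg h, if_neg this]; rfl

theorem form_comap_equiv {V V' : Type} [Fintype V] [Fintype V'] (K : CRG V) (e : V' ≃ V) (p : ℝ)
    (x : V → ℝ) : form (K.comap e) p (x ∘ e) = form K p x := by
  unfold form
  rw [← e.sum_comp]
  refine Finset.sum_congr rfl fun i _ => ?_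
  rw [← e.sum_comp]
  refine Finset.sum_congr rfl fun j _ => ?_
  rw [mat_comap K e.injective]; rfl

theorem sum_subtype_eq {V : Type} [Fintype V] (P : V → Prop) [Fintype {v // P v}] (f : V → ℝ)
    (hf : ∀ i, ¬ P i → f i = 0) : ∑ i : {v // P v}, f i.1 = ∑ i, f i := by
  rw [← Finset.sum_subtype (Finset.univ.filter P) (fun x => by simp) f, Finset.sum_filter]
  refine Finset.sum_congr rfl fun i _ => ?_
  by_cases h : P i
  · rw [if_pos h]
  · rw [if_neg h, hf i h]

theorem form_restrict {V : Type} [Fintype V] (K : CRG V) (p : ℝ) (P : V → Prop)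
    [Fintype {v // P v}] (x : V → ℝ)
    (hx : ∀ i, ¬ P i → x i = 0) : form (K.restrict P) p (fun v => x v.1) = form K p x := by
  unfold form
  have key : ∀ i : V, ∑ j : {v // P v}, x i * mat K p i j.1 * x j.1 = ∑ j, x i * mat K p i j * x j :=
    fun i => sum_subtype_eq P (fun j => x i * mat K p i j * x j) (fun j hj => by simp [hx j hj])
  have e1 : ∀ i j : {v // P v}, mat (K.restrict P) p i j = mat K p i.1 j.1 := fun i j =>
    mat_comap K Subtype.val_injective p i j
  simp only [e1]
  have : ∀ i : {v // P v}, ∑ j : {v // P v}, x i.1 * mat K p i.1 j.1 * x j.1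
      = ∑ j, x i.1 * mat K p i.1 j * x j := fun i => key i.1
  rw [Finset.sum_congr rfl fun i _ => this i]
  exact sum_subtype_eq P (fun i => ∑ j, x i * mat K p i j * x j)
    (fun i hi => by simp [hx i hi])

theorem simp_restrict {V : Type} [Fintype V] (P : V → Prop) [Fintype {v // P v}] (x : V → ℝ)
    (h : Simp x)
    (hx : ∀ i, ¬ P i → x i = 0) : Simp (fun v : {v // P v} => x v.1) :=
  ⟨fun i => h.1 i.1, by rw [sum_subtype_eq P x hx]; exact h.2⟩

/-- extremal colored regularity graphs -/
structure Ext {W V : Type} [Fintype V] (H : SimpleGraph W) (p : ℝ) (K : CRG V) (x : V → ℝ) :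
    Prop where
  avoid : Avoids H K
  simp : Simp x
  min : ∀ (V' : Type) [Fintype V'] (K' : CRG V') (x' : V' → ℝ),
    Fintype.card V' ≤ Fintype.card V → Avoids H K' → Simp x' → form K p x ≤ form K' p x'
  lt : ∀ (V' : Type) [Fintype V'] (K' : CRG V') (x' : V' → ℝ),
    Fintype.card V' < Fintype.card V → Avoids H K' → Simp x' → form K p x < form K' p x'

variable {W V : Type} [Fintype V] {H : SimpleGraph W} {p : ℝ} {K : CRG V} {x : V → ℝ}

theorem Ext.min' (h : Ext H p K x) {y : V → ℝ} (hy : Simp y) : form K p x ≤ form K p y :=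
  h.min V K y le_rfl h.avoid hy

theorem Ext.lt' (h : Ext H p K x) {y : V → ℝ} (hy : Simp y) {i : V} (hi : y i = 0) :
    form K p x < form K p y := by
  have hP : ∀ j, ¬ (j ≠ i) → y j = 0 := fun j hj => by
    rw [not_not] at hj; rw [hj, hi]
  have := h.lt {v // v ≠ i} (K.restrict (fun v => v ≠ i)) (fun v => y v.1) ?_
    (avoids_restrict _ h.avoid) (simp_restrict _ y hy hP)
  · rwa [form_restrict K p _ y hP] at this
  · exact Fintype.card_subtype_lt (x := i) (by simp)

theorem Ext.pos (h : Ext H p K x) (i : V) : 0 < x i := by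
  rcases (h.simp.1 i).lt_or_eq with h1 | h1
  · exact h1
  · exact absurd (h.lt' h.simp h1.symm) (lt_irrefl _)

theorem Ext.row_eq (h : Ext H p K x) (i : V) : row K p x i = form K p x := by
  have key : ∀ i j : V, row K p x i = row K p x j := by
    intro i j
    by_contra hne
    have hij : i ≠ j := fun e => hne (by rw [e])
    set w : V → ℝ := Pi.single i 1 - Pi.single j 1 with hw
    have hb : bil K p w x = row K p x i - row K p x j := by
      rw [bil_eq_row, hw]
      simp only [Pi.sub_apply, sub_mul, Finset.sum_sub_distrib, Pi.single_apply, ite_mul, one_mul,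
        zero_mul, Finset.sum_ite_eq', Finset.mem_univ, if_true]
    set a := bil K p w x with ha
    have ha0 : a ≠ 0 := by rw [hb]; exact sub_ne_zero.2 hne
    set c := form K p w with hc
    set δ := Min.min (x i) (x j) with hδ
    have hδ0 : 0 < δ := lt_min (h.pos i) (h.pos j)
    have hineq : ∀ t : ℝ, |t| ≤ δ → 0 ≤ 2 * t * a + t ^ 2 * c := by
      intro t ht
      have ht1 := abs_le.1 ht
      have hs : Simp (x + t • w) := by
        constructor
        · intro k
          simp only [hw, Pi.add_apply, Pi.smul_apply, Pi.sub_apply, Pi.single_apply, smul_eq_mul]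
          have hk := h.simp.1 k
          have h1 : δ ≤ x i := min_le_left _ _
          have h2 : δ ≤ x j := min_le_right _ _
          by_cases e1 : k = i
          · subst e1
            rw [if_pos rfl, if_neg hij]; linarith [ht1.1]
          · by_cases e2 : k = j
            · subst e2
              rw [if_neg e1, if_pos rfl]; linarith [ht1.2]
            · rw [if_neg e1, if_neg e2]; linarith
        · have : ∑ k, (x + t • w) k = ∑ k, x k + t * ∑ k, w k := by
            simp only [Pi.add_apply, Pi.smul_apply, smul_eq_mul, Finset.sum_add_distrib,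
              Finset.mul_sum]
          rw [this, h.simp.2, hw]
          simp [Pi.single_apply]
      have := h.min' hs
      rw [form_add_smul] at this
      linarith
    -- choose t with sign opposite to a
    have hc1 : 0 < |c| + 1 := by positivity
    set t : ℝ := Min.min δ (|a| / (|c| + 1)) with ht
    have ht0 : 0 < t := lt_min hδ0 (div_pos (abs_pos.2 ha0) hc1)
    have htc : t * |c| < 2 * |a| := by
      have h1 : t * (|c| + 1) ≤ |a| := by
        have := min_le_right δ (|a| / (|c| + 1))
        rw [← ht] at this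
        rwa [le_div_iff₀ hc1] at this
      have h2 : 0 < |a| := abs_pos.2 ha0
      nlinarith
    rcases lt_or_gt_of_ne ha0 with hneg | hpos
    · have := hineq t (by rw [abs_of_pos ht0]; exact min_le_left _ _)
      have h1 : |a| = -a := abs_of_neg hneg
      rw [h1] at htc
      have h2 : c ≤ |c| := le_abs_self c
      nlinarith
    · have := hineq (-t) (by rw [abs_neg, abs_of_pos ht0]; exact min_le_left _ _)
      have h1 : |a| = a := abs_of_pos hpos
      rw [h1] at htc
      have h2 : c ≤ |c| := le_abs_self c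
      nlinarith
  have h1 : form K p x = ∑ j, x j * row K p x j := by rw [form_eq_bil, bil_eq_row]
  rw [h1, Finset.sum_congr rfl (fun j _ => by rw [key j i]), ← Finset.sum_mul, h.simp.2, one_mul]

theorem Ext.form_pos (h : Ext H p K x) {w : V → ℝ} (hw : ∑ i, w i = 0) (hw0 : w ≠ 0) :
    0 < form K p w := by
  by_contra hle
  push Not at hle
  -- there is a negative coordinate
  have hneg : ∃ i, w i < 0 := by
    by_contra hcon
    push Not at hcon
    apply hw0
    funext i
    exact (Finset.sum_eq_zero_iff_of_nonneg (fun i _ => hcon i)).1 hw i (Finset.mem_univ i)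
  obtain ⟨i0, hi0⟩ := hneg
  set S : Finset V := Finset.univ.filter (fun i => w i < 0) with hS
  have hSne : S.Nonempty := ⟨i0, by simp [hS, hi0]⟩
  obtain ⟨i, hiS, hmin⟩ := Finset.exists_min_image S (fun i => x i / (-w i)) hSne
  have hi : w i < 0 := by simpa [hS] using hiS
  set t := x i / (-w i) with ht
  have ht0 : 0 < t := div_pos (h.pos i) (by linarith)
  have hz : (x + t • w) i = 0 := by
    simp only [Pi.add_apply, Pi.smul_apply, smul_eq_mul, ht]
    have : w i ≠ 0 := ne_of_lt hi
    field_simp
    ring
  have hs : Simp (x + t • w) := by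
    constructor
    · intro k
      simp only [Pi.add_apply, Pi.smul_apply, smul_eq_mul]
      by_cases hk : w k < 0
      · have := hmin k (by simp [hS, hk])
        have h2 : t ≤ x k / (-w k) := this
        rw [le_div_iff₀ (by linarith)] at h2
        linarith
      · push Not at hk
        have := h.simp.1 k
        have := mul_nonneg ht0.le hk
        linarith
    · have : ∑ k, (x + t • w) k = ∑ k, x k + t * ∑ k, w k := by
        simp only [Pi.add_apply, Pi.smul_apply, smul_eq_mul, Finset.sum_add_distrib,
          Finset.mul_sum]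
      rw [this, h.simp.2, hw]; ring
  have h1 := h.lt' hs hz
  rw [form_add_smul, bil_eq_row, Finset.sum_congr rfl (fun j _ => by rw [h.row_eq j]),
    ← Finset.sum_mul, hw] at h1
  have : t ^ 2 * form K p w ≤ 0 := mul_nonpos_of_nonneg_of_nonpos (sq_nonneg t) hle
  linarith

end

end Pool.Agent.Crg
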