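import Pool.Agent.Crg.Struct

set_option autoImplicit false

namespace Pool.Agent.Crg

open scoped BigOperators
open Finset

section
open Classical

/-- Ramsey's theorem, finite form. -/
theorem ramsey (a b : ℕ) : ∃ R : ℕ, ∀ (V : Type) (G : SimpleGraph V) (X : Finset V), R ≤ X.card →
    (∃ C ⊆ X, C.card = a ∧ G.IsClique (C : Set V)) ∨
    (∃ I ⊆ X, I.card = b ∧ ∀ s ∈ I, ∀ t ∈ I, ¬ G.Adj s t) := by
  induction a generalizing b with
  | zero => exact ⟨0, fun V G X _ => Or.inl ⟨∅, by simp, by simp, by simp⟩⟩
  | succ a iha =>
    induction b with
    | zero => exact ⟨0, fun V G X _ => Or.inr ⟨∅, by simp, by simp, by simp⟩⟩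
    | succ b ihb =>
      obtain ⟨R1, h1⟩ := iha (b + 1)
      obtain ⟨R2, h2⟩ := ihb
      refine ⟨R1 + R2 + 1, fun V G X hX => ?_⟩
      have hne : X.Nonempty := Finset.card_pos.1 (by omega)
      obtain ⟨v, hv⟩ := hne
      set A := (X.erase v).filter (fun u => G.Adj v u) with hA
      set B := (X.erase v).filter (fun u => ¬ G.Adj v u) with hB
      have hcard : A.card + B.card = X.card - 1 := by
        rw [hA, hB, Finset.card_filter_add_card_filter_not, Finset.card_erase_of_mem hv]
      have hAX : A ⊆ X := (Finset.filter_subset _ _).trans (Finset.erase_subset _ _)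
      have hBX : B ⊆ X := (Finset.filter_subset _ _).trans (Finset.erase_subset _ _)
      have hvA : v ∉ A := by simp [hA]
      have hvB : v ∉ B := by simp [hB]
      have hAadj : ∀ u ∈ A, G.Adj v u := fun u hu => (Finset.mem_filter.1 hu).2
      have hBadj : ∀ u ∈ B, ¬ G.Adj v u := fun u hu => (Finset.mem_filter.1 hu).2
      by_cases hc : R1 ≤ A.card
      · rcases h1 V G A hc with ⟨C, hC, hCc, hCq⟩ | ⟨I, hI, hIc, hIq⟩
        · left
          refine ⟨insert v C, ?_, ?_, ?_⟩
          · exact Finset.insert_subset hv (hC.trans hAX)
          · rw [Finset.card_insert_of_notMem (fun hh => hvA (hC hh)), hCc]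
          · rw [Finset.coe_insert, SimpleGraph.isClique_insert]
            exact ⟨hCq, fun u hu _ => hAadj u (hC hu)⟩
        · right; exact ⟨I, hI.trans hAX, hIc, hIq⟩
      · have hc2 : R2 ≤ B.card := by omega
        rcases h2 V G B hc2 with ⟨C, hC, hCc, hCq⟩ | ⟨I, hI, hIc, hIq⟩
        · left; exact ⟨C, hC.trans hBX, hCc, hCq⟩
        · right
          refine ⟨insert v I, ?_, ?_, ?_⟩
          · exact Finset.insert_subset hv (hI.trans hBX)
          · rw [Finset.card_insert_of_notMem (fun hh => hvB (hI hh)), hIc]
          · intro s hs t ht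
            rw [Finset.mem_insert] at hs ht
            rcases hs with rfl | hs
            · rcases ht with rfl | ht
              · exact SimpleGraph.irrefl _
              · exact hBadj t (hI ht)
            · rcases ht with rfl | ht
              · exact fun hh => hBadj s (hI hs) hh.symm
              · exact hIq s hs t ht

variable {W V : Type} [Fintype V] {H : SimpleGraph W} {p : ℝ} {K : CRG V} {x : V → ℝ}

/-- add a white vertex, gray to the vertices of `T` and to the white vertices, white to the rest -/
noncomputable def CRG.insert (K : CRG V) (T : Set V) : CRG (Option V) where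
  black
    | none => false
    | some v => K.black v
  col
    | none, none => 0
    | none, some v => if v ∈ T ∨ K.black v = false then 1 else 0
    | some v, none => if v ∈ T ∨ K.black v = false then 1 else 0
    | some u, some v => K.col u v
  symm
    | none, none => rfl
    | none, some _ => rfl
    | some _, none => rfl
    | some u, some v => K.symm u v

theorem Ext.avoids_insert [Fintype W] (h : Ext H p K x) (h0 : 0 < p) (h1 : p ≤ 1 / 2)
    {S : Finset V} {T : Set V} (hS : 50 * Fintype.card W ≤ S.card)
    (hT : ∀ v ∈ T, (S.filter (fun s => ¬ (gray K).Adj s v)).card ≤ 48) :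
    Avoids H (K.insert T) := by
  rintro ⟨φ, hφ⟩
  set bad : W → Finset V := fun w => S.filter (fun s => (∃ v, φ w = some v ∧ v ∈ T ∧
    ¬ (gray K).Adj s v) ∨ φ w = some s) with hbad
  have hbadc : ∀ w, (bad w).card ≤ 49 := by
    intro w
    rcases hw : φ w with _ | v
    · have : bad w = ∅ := by
        rw [hbad]; simp [hw]
      rw [this]; simp
    · by_cases hv : v ∈ T
      · have : bad w ⊆ insert v (S.filter (fun s => ¬ (gray K).Adj s v)) := by
          intro s hs
          have hs' := (Finset.mem_filter.1 hs)
          rcases hs'.2 with ⟨v', hv', _, hadj⟩ | hh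
          · rw [hw] at hv'
            obtain rfl : v = v' := by simpa using hv'
            exact Finset.mem_insert_of_mem (Finset.mem_filter.2 ⟨hs'.1, hadj⟩)
          · rw [hw] at hh
            obtain rfl : v = s := by simpa using hh
            exact Finset.mem_insert_self _ _
        have := (Finset.card_le_card this).trans (Finset.card_insert_le _ _)
        have h3 := hT v hv
        omega
      · have : bad w ⊆ {v} := by
          intro s hs
          have hs' := (Finset.mem_filter.1 hs)
          rcases hs'.2 with ⟨v', hv', hT', _⟩ | hh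
          · rw [hw] at hv'
            obtain rfl : v = v' := by simpa using hv'
            exact absurd hT' hv
          · rw [hw] at hh
            obtain rfl : v = s := by simpa using hh
            simp
        have := Finset.card_le_card this
        simp at this; omega
  set Sg := S \ (Finset.univ.biUnion bad) with hSg
  have hcard : Fintype.card W ≤ Fintype.card Sg := by
    have h2 : (Finset.univ.biUnion bad).card ≤ Fintype.card W * 49 := by
      refine Finset.card_biUnion_le.trans ?_
      refine (Finset.sum_le_card_nsmul _ _ 49 (fun w _ => hbadc w)).trans ?_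
      simp
    have h3 : S.card - (Finset.univ.biUnion bad).card ≤ Sg.card := by
      rw [hSg]; exact Finset.le_card_sdiff _ _
    rw [Fintype.card_coe]
    omega
  obtain ⟨f⟩ := Function.Embedding.nonempty_of_card_le hcard
  have hfS : ∀ w, (f w).1 ∈ S := fun w => (Finset.mem_sdiff.1 (f w).2).1
  have hfbad : ∀ w w', (f w).1 ∉ bad w' := fun w w' hh =>
    (Finset.mem_sdiff.1 (f w).2).2 (Finset.mem_biUnion.2 ⟨w', Finset.mem_univ _, hh⟩)
  have hfne : ∀ w w', φ w' ≠ some (f w).1 := fun w w' hh =>
    hfbad w w' (Finset.mem_filter.2 ⟨hfS w, Or.inr hh⟩)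
  have hfadj : ∀ w w' v, φ w' = some v → v ∈ T → (gray K).Adj (f w).1 v := by
    intro w w' v hv hvT
    by_contra hh
    exact hfbad w w' (Finset.mem_filter.2 ⟨hfS w, Or.inl ⟨v, hv, hvT, hh⟩⟩)
  have hcross : ∀ w w' v, φ w' = some v → (v ∈ T ∨ K.black v = false) → K.col (f w).1 v = 1 := by
    intro w w' v hv hvT
    rcases hvT with hvT | hvT
    · exact (hfadj w w' v hv hvT).2
    · rw [K.symm]
      refine h.white_gray h0 h1 ?_ hvT
      intro e; exact hfne w w' (by rw [hv, e])
  refine h.avoid ⟨fun w => (φ w).getD (f w).1, fun u v huv => ?_⟩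
  obtain ⟨hA, hB⟩ := hφ u v huv
  rcases hu : φ u with _ | a <;> rcases hv : φ v with _ | b <;>
    simp only [hu, hv, Option.getD_none, Option.getD_some]
  · rw [hu, hv] at hA hB
    have hne : (f u).1 ≠ (f v).1 := fun e => huv (f.injective (Subtype.ext e))
    constructor
    · intro ha
      rcases hA ha with ⟨_, hb⟩ | ⟨hn, _⟩
      · exact absurd hb (by simp [CRG.insert])
      · exact absurd rfl hn
    · intro _
      exact Or.inr ⟨by simpa using hne, by simpa using h.no_black_edge h1 hne⟩
  · rw [hu, hv] at hA hB
    have hne : (f u).1 ≠ b := fun e => hfne u v (by rw [hv, e])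
    constructor
    · intro ha
      rcases hA ha with ⟨hn, _⟩ | ⟨_, hc⟩
      · exact absurd hn (by simp)
      · have hc' : b ∈ T ∨ K.black b = false := by
          by_contra hh
          exact hc (by simp [CRG.insert, hh])
        refine Or.inr ⟨by simpa using hne, ?_⟩
        have := hcross u v b hv hc'
        simp [this]
    · intro _
      exact Or.inr ⟨by simpa using hne, by simpa using h.no_black_edge h1 hne⟩
  · rw [hu, hv] at hA hB
    have hne : a ≠ (f v).1 := fun e => hfne v u (by rw [hu, e])
    constructor
    · intro ha
      rcases hA ha with ⟨hn, _⟩ | ⟨_, hc⟩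
      · exact absurd hn (by simp)
      · have hc' : a ∈ T ∨ K.black a = false := by
          by_contra hh
          exact hc (by simp [CRG.insert, hh])
        refine Or.inr ⟨by simpa using hne, ?_⟩
        have := hcross v u a hu hc'
        rw [K.symm] at this
        simp [this]
    · intro _
      exact Or.inr ⟨by simpa using hne, by simpa using h.no_black_edge h1 hne⟩
  · rw [hu, hv] at hA hB
    constructor
    · intro ha
      rcases hA ha with ⟨hn, hb⟩ | ⟨hn, hc⟩
      · exact Or.inl ⟨by simpa using hn, by simpa [CRG.insert] using hb⟩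
      · exact Or.inr ⟨by simpa using hn, by simpa [CRG.insert] using hc⟩
    · intro ha
      rcases hB ha with ⟨hn, hb⟩ | ⟨hn, hc⟩
      · exact Or.inl ⟨by simpa using hn, by simpa [CRG.insert] using hb⟩
      · exact Or.inr ⟨by simpa using hn, by simpa [CRG.insert] using hc⟩

/-- the value inequality obtained from inserting a white vertex -/
theorem Ext.mass [Fintype W] (h : Ext H p K x) (h0 : 0 < p) (h1 : p ≤ 1 / 2)
    {S N : Finset V} {T : Set V} (hS : 50 * Fintype.card W ≤ S.card)
    (hT : ∀ v ∈ T, (S.filter (fun s => ¬ (gray K).Adj s v)).card ≤ 48)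
    (hN : ∀ v, v ∈ N ↔ ¬ (v ∈ T ∨ K.black v = false)) (hN2 : 2 ≤ N.card) :
    form K p x < p * ∑ v ∈ N, x v := by
  set X := ∑ v ∈ N, x v with hX
  have hXpos : 0 < X := Finset.sum_pos (fun v _ => h.pos v) (Finset.card_pos.1 (by omega))
  have hav := h.avoids_insert h0 h1 hS hT
  set z : Option V → ℝ := fun o => o.elim X (fun v => if v ∈ N then 0 else x v) with hz
  set P : Option V → Prop := fun o => ∀ v ∈ N, o ≠ some v with hP
  have hzP : ∀ o, ¬ P o → z o = 0 := by
    intro o ho
    simp only [hP] at ho
    push Not at ho
    obtain ⟨v, hv, rfl⟩ := ho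
    simp [hz, hv]
  set xN : V → ℝ := fun v => if v ∈ N then x v else 0 with hxN
  have hxNs : ∑ v, xN v = X := by simp [hxN, hX]
  have hzs : Simp z := by
    constructor
    · intro o
      rcases o with _ | v
      · exact hXpos.le
      · simp only [hz, Option.elim]
        split_ifs
        · exact le_rfl
        · exact (h.pos v).le
    · rw [Fintype.sum_option]
      have : ∀ v, z (some v) = x v - xN v := by
        intro v
        simp only [hz, hxN, Option.elim]
        split_ifs <;> ring
      rw [Finset.sum_congr rfl fun v _ => this v, Finset.sum_sub_distrib, hxNs, h.simp.2]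
      simp [hz]
  have hcard : Fintype.card {o // P o} < Fintype.card V := by
    have e1 : Fintype.card {o // P o} = ((Finset.univ : Finset (Option V)) \ (N.image some)).card := by
      rw [Fintype.card_subtype]
      congr 1
      ext o
      simp only [hP, Finset.mem_filter, Finset.mem_univ, true_and, Finset.mem_sdiff,
        Finset.mem_image, not_exists, not_and]
      constructor
      · intro hh v hv e; exact hh v hv e.symm
      · intro hh v hv e; exact hh v hv e.symm
    rw [e1, Finset.card_sdiff_of_subset (Finset.subset_univ _),
      Finset.card_image_of_injective _ (Option.some_injective V), Finset.card_univ,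
      Fintype.card_option]
    have : N.card ≤ Fintype.card V := Finset.card_le_univ N
    omega
  have hlt := h.lt {o // P o} ((K.insert T).restrict P) (fun o => z o.1) hcard
    (avoids_restrict P hav) (simp_restrict P z hzs hzP)
  rw [form_restrict (K.insert T) p P z hzP] at hlt
  -- compute the form
  have e1 : form (K.insert T) p z = p * X ^ 2 + form K p (x - (1 : ℝ) • xN) := by
    unfold form
    have m0 : mat (K.insert T) p none none = p := by unfold mat; simp [CRG.insert]
    have m1 : ∀ v, mat (K.insert T) p none (some v) * z (some v) = 0 := by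
      intro v
      by_cases hv : v ∈ N
      · simp [hz, hv]
      · have : v ∈ T ∨ K.black v = false := by
          by_contra hh; exact hv ((hN v).2 hh)
        have : mat (K.insert T) p none (some v) = 0 := by
          unfold mat
          rw [if_neg (by simp)]
          simp [CRG.insert, this]
        rw [this, zero_mul]
    have m2 : ∀ u v, mat (K.insert T) p (some u) (some v) = mat K p u v := by
      intro u v
      unfold mat
      by_cases huv : u = v
      · subst huv; rw [if_pos rfl, if_pos rfl]; rfl
      · rw [if_neg huv, if_neg (by simpa using huv)]; rfl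
    have m3 : ∀ v, z (some v) * mat (K.insert T) p (some v) none = 0 := by
      intro v; rw [mat_symm, mul_comm]; exact m1 v
    have zv : ∀ v, z (some v) = (x - (1 : ℝ) • xN) v := by
      intro v
      simp only [hz, hxN, Option.elim, Pi.sub_apply, Pi.smul_apply, smul_eq_mul, one_mul]
      split_ifs <;> ring
    rw [Fintype.sum_option]
    have s1 : ∑ o, z none * mat (K.insert T) p none o * z o = p * X ^ 2 := by
      rw [Fintype.sum_option, m0]
      have : ∀ v, z none * mat (K.insert T) p none (some v) * z (some v) = 0 := by
        intro v; rw [mul_assoc, m1 v, mul_zero]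
      rw [Finset.sum_eq_zero fun v _ => this v]
      simp only [hz, Option.elim]; ring
    rw [s1]
    congr 1
    refine Finset.sum_congr rfl fun v _ => ?_
    rw [Fintype.sum_option, m3 v, zero_mul, zero_add]
    refine Finset.sum_congr rfl fun u _ => ?_
    rw [m2, zv, zv]
  rw [e1, form_sub_smul] at hlt
  have e2 : bil K p x xN = form K p x * X := by
    rw [bil_symm, bil_eq_row, Finset.sum_congr rfl (fun j _ => by rw [h.row_eq j]),
      ← Finset.sum_mul, hxNs, mul_comm]
  have e3 : form K p xN ≤ form K p x * X := by
    rw [form_eq_bil K p xN, bil_eq_row, ← e2, bil_symm, bil_eq_row]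
    refine Finset.sum_le_sum fun i _ => ?_
    have hi : 0 ≤ xN i := by
      simp only [hxN]; split_ifs
      · exact (h.pos i).le
      · exact le_rfl
    refine mul_le_mul_of_nonneg_left ?_ hi
    unfold row
    refine Finset.sum_le_sum fun j _ => mul_le_mul_of_nonneg_left ?_ (mat_nonneg K h0.le (by linarith) i j)
    simp only [hxN]; split_ifs
    · exact le_rfl
    · exact (h.pos j).le
  rw [e2] at hlt
  have : 0 < X * (p * X - form K p x) := by nlinarith
  have := (mul_pos_iff_of_pos_left hXpos).1 this
  linarith

end

end Pool.Agent.Crg
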