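import Pool.Agent.Crg.Bound

set_option autoImplicit false

namespace Pool.Agent.Crg

open scoped BigOperators
open Finset

section
open Classical

variable {W V : Type} [Fintype V] {H : SimpleGraph W} {p : ℝ} {K : CRG V} {x : V → ℝ}

omit [Fintype V] in
theorem adj_nonneg (K : CRG V) (i j : V) : 0 ≤ adj K i j := by
  unfold adj; split_ifs <;> norm_num

omit [Fintype V] in
theorem adj_comm (K : CRG V) (i j : V) : adj K i j = adj K j i := by
  unfold adj; simp only [SimpleGraph.adj_comm]

/-- rows of the vertices in `N` -/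
theorem Ext.row_N (h : Ext H p K x) (h0 : 0 < p) (h1 : p ≤ 1 / 2) {N : Finset V}
    (hNb : ∀ v ∈ N, K.black v = true) (hm : form K p x < p * ∑ v ∈ N, x v) {v : V} (hv : v ∈ N) :
    (1 - 2 * p) * x v < p * ∑ u ∈ N, adj K v u * x u := by
  have e1 : ∑ u ∈ N, mat K p v u * x u
      = p * ∑ u ∈ N, x u - p * ∑ u ∈ N, adj K v u * x u + (1 - 2 * p) * x v := by
    have : ∀ u, mat K p v u * x u = p * x u - p * (adj K v u * x u)
        + (if v = u then (1 - 2 * p) * x u else 0) := by
      intro u
      rw [h.mat_black h1 (hNb v hv)]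
      split_ifs <;> ring
    rw [Finset.sum_congr rfl fun u _ => this u, Finset.sum_add_distrib, Finset.sum_sub_distrib,
      ← Finset.mul_sum, ← Finset.mul_sum, Finset.sum_ite_eq, if_pos hv]
  have e2 : ∑ u ∈ N, mat K p v u * x u ≤ form K p x := by
    rw [← h.row_eq v]
    unfold row
    exact Finset.sum_le_sum_of_subset_of_nonneg (Finset.subset_univ _)
      (fun u _ _ => mul_nonneg (mat_nonneg K h0.le (by linarith) v u) (h.pos u).le)
  linarith

/-- `N` is connected in the gray graph -/
theorem Ext.conn (h : Ext H p K x) (h0 : 0 < p) (h1 : p ≤ 1 / 2) {N : Finset V}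
    (hNb : ∀ v ∈ N, K.black v = true) (hm : form K p x < p * ∑ v ∈ N, x v) {C : Finset V}
    (hC : C ⊆ N) (hCne : C.Nonempty) (hCN : C ≠ N) :
    ∃ u ∈ C, ∃ v ∈ N, v ∉ C ∧ (gray K).Adj u v := by
  by_contra hcon
  push Not at hcon
  set C' := N \ C with hC'
  have hC'ne : C'.Nonempty := by
    rw [hC', Finset.sdiff_nonempty]
    exact fun hh => hCN (Finset.Subset.antisymm hC hh)
  set X1 := ∑ v ∈ C, x v with hX1
  set X2 := ∑ v ∈ C', x v with hX2
  have hX1p : 0 < X1 := Finset.sum_pos (fun v _ => h.pos v) hCne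
  have hX2p : 0 < X2 := Finset.sum_pos (fun v _ => h.pos v) hC'ne
  have hdis : ∀ i ∈ C, i ∉ C' := fun i hi => by simp [hC', hi]
  set w : V → ℝ := fun i => (if i ∈ C then x i / X1 else 0) - (if i ∈ C' then x i / X2 else 0) with hw
  have w1 : ∀ i ∈ C, w i = x i / X1 := fun i hi => by simp [hw, hi, hdis i hi]
  have w2 : ∀ i ∈ C', w i = -(x i / X2) := fun i hi => by
    have : i ∉ C := (Finset.mem_sdiff.1 hi).2
    simp [hw, hi, this]
  have w0 : ∀ i, i ∉ C → i ∉ C' → w i = 0 := fun i a b => by simp [hw, a, b]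
  have hsum : ∑ i, w i = 0 := by
    simp only [hw, Finset.sum_sub_distrib, Finset.sum_ite_mem, Finset.univ_inter]
    rw [← Finset.sum_div, ← Finset.sum_div, ← hX1, ← hX2, div_self hX1p.ne', div_self hX2p.ne',
      sub_self]
  have hw0 : w ≠ 0 := by
    obtain ⟨i, hi⟩ := hCne
    intro e
    have := congrFun e i
    rw [w1 i hi] at this
    have hp := div_pos (h.pos i) hX1p
    simp at this
    rcases this with h' | h'
    · exact (h.pos i).ne' h'
    · exact hX1p.ne' h'
  have hNC : ∀ i, i ∈ N → i ∉ C → i ∈ C' := fun i a b => Finset.mem_sdiff.2 ⟨a, b⟩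
  have hb : ∀ i, w i ≠ 0 → K.black i = true := by
    intro i hi
    by_cases a : i ∈ C
    · exact hNb i (hC a)
    · by_cases b : i ∈ C'
      · exact hNb i (Finset.mem_sdiff.1 b).1
      · exact absurd (w0 i a b) hi
  have ht := h.test h1 hb hsum hw0
  have key : ∀ i, (1 - 2 * p) * w i ^ 2 ≤ p * (w i * ∑ j, adj K i j * w j) := by
    intro i
    by_cases a : i ∈ C
    · have e : ∑ j, adj K i j * w j = (∑ j ∈ N, adj K i j * x j) / X1 := by
        rw [Finset.sum_div, ← Finset.sum_subset (Finset.subset_univ N)]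
        · refine Finset.sum_congr rfl fun j hj => ?_
          by_cases c : j ∈ C
          · rw [w1 j c]; ring
          · have : ¬ (gray K).Adj i j := hcon i a j hj c
            unfold adj; rw [if_neg this]; ring
        · intro j _ hj
          rw [w0 j (fun c => hj (hC c)) (fun c => hj (Finset.mem_sdiff.1 c).1), mul_zero]
      rw [e, w1 i a]
      have hr := h.row_N h0 h1 hNb hm (hC a)
      have hxi := h.pos i
      have e3 : p * (x i / X1 * ((∑ j ∈ N, adj K i j * x j) / X1))
          = (x i / X1 ^ 2) * (p * ∑ j ∈ N, adj K i j * x j) := by field_simp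
      have e4 : (1 - 2 * p) * (x i / X1) ^ 2 = (x i / X1 ^ 2) * ((1 - 2 * p) * x i) := by
        field_simp
      rw [e3, e4]
      exact mul_le_mul_of_nonneg_left hr.le (by positivity)
    · by_cases b : i ∈ C'
      · have hiN := (Finset.mem_sdiff.1 b).1
        have e : ∑ j, adj K i j * w j = -((∑ j ∈ N, adj K i j * x j) / X2) := by
          rw [Finset.sum_div, ← Finset.sum_neg_distrib, ← Finset.sum_subset (Finset.subset_univ N)]
          · refine Finset.sum_congr rfl fun j hj => ?_
            by_cases c : j ∈ C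
            · have : ¬ (gray K).Adj i j := fun hh => hcon j c i hiN a hh.symm
              unfold adj; rw [if_neg this]; ring
            · rw [w2 j (hNC j hj c)]; ring
          · intro j _ hj
            rw [w0 j (fun c => hj (hC c)) (fun c => hj (Finset.mem_sdiff.1 c).1), mul_zero]
        rw [e, w2 i b]
        have hr := h.row_N h0 h1 hNb hm hiN
        have hxi := h.pos i
        have e3 : p * (-(x i / X2) * (-((∑ j ∈ N, adj K i j * x j) / X2)))
            = (x i / X2 ^ 2) * (p * ∑ j ∈ N, adj K i j * x j) := by field_simp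
        have e4 : (1 - 2 * p) * (-(x i / X2)) ^ 2 = (x i / X2 ^ 2) * ((1 - 2 * p) * x i) := by
          field_simp
        rw [e3, e4]
        exact mul_le_mul_of_nonneg_left hr.le (by positivity)
      · rw [w0 i a b]; simp
  have := Finset.sum_le_sum (fun i (_ : i ∈ (Finset.univ : Finset V)) => key i)
  rw [← Finset.mul_sum, ← Finset.mul_sum] at this
  linarith

omit [Fintype V] in
/-- the adjacency sum along a path -/
theorem path_sum (K : CRG V) (m : ℕ) (q : ℕ → V)
    (hinj : Set.InjOn q (Finset.range m : Set ℕ)) (hadj : ∀ i, i + 1 < m → (gray K).Adj (q i) (q (i + 1))) :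
    2 * ((m : ℝ) - 1) ≤ ∑ v ∈ (Finset.range m).image q, ∑ u ∈ (Finset.range m).image q, adj K v u := by
  rw [Finset.sum_image hinj]
  have e : ∀ i ∈ Finset.range m, ∑ u ∈ (Finset.range m).image q, adj K (q i) u
      = ∑ j ∈ Finset.range m, adj K (q i) (q j) := fun i _ => Finset.sum_image hinj
  rw [Finset.sum_congr rfl e]
  have hle : ∀ i ∈ Finset.range m, ∀ j ∈ Finset.range m,
      (if j = i + 1 then (1 : ℝ) else 0) + (if i = j + 1 then 1 else 0) ≤ adj K (q i) (q j) := by
    intro i hi j hj
    rw [Finset.mem_range] at hi hj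
    by_cases h1 : j = i + 1
    · subst h1
      rw [if_pos rfl, if_neg (by omega)]
      unfold adj; rw [if_pos (hadj i hj)]; norm_num
    · by_cases h2 : i = j + 1
      · subst h2
        rw [if_neg h1, if_pos rfl]
        unfold adj; rw [if_pos (hadj j hi).symm]; norm_num
      · rw [if_neg h1, if_neg h2]; simpa using adj_nonneg K _ _
  have h2 : ∑ i ∈ Finset.range m, ∑ j ∈ Finset.range m,
      ((if j = i + 1 then (1 : ℝ) else 0) + (if i = j + 1 then 1 else 0)) = 2 * ((m - 1 : ℕ) : ℝ) := by
    simp only [Finset.sum_add_distrib]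
    have a : ∑ i ∈ Finset.range m, ∑ j ∈ Finset.range m, (if j = i + 1 then (1 : ℝ) else 0)
        = ((m - 1 : ℕ) : ℝ) := by
      have : ∀ i, ∑ j ∈ Finset.range m, (if j = i + 1 then (1 : ℝ) else 0)
          = if i ∈ Finset.range (m - 1) then 1 else 0 := by
        intro i
        rw [Finset.sum_ite_eq']
        have : (i + 1 ∈ Finset.range m) ↔ (i ∈ Finset.range (m - 1)) := by
          simp only [Finset.mem_range]; omega
        simp only [this]
      rw [Finset.sum_congr rfl fun i _ => this i, Finset.sum_ite_mem]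
      have : Finset.range m ∩ Finset.range (m - 1) = Finset.range (m - 1) := by
        ext i; simp only [Finset.mem_inter, Finset.mem_range]; omega
      rw [this]; simp
    have b : ∑ i ∈ Finset.range m, ∑ j ∈ Finset.range m, (if i = j + 1 then (1 : ℝ) else 0)
        = ((m - 1 : ℕ) : ℝ) := by
      rw [Finset.sum_comm]; exact a
    rw [a, b]; ring
  have h3 : ((m : ℝ) - 1) ≤ ((m - 1 : ℕ) : ℝ) := by
    rcases Nat.eq_zero_or_pos m with rfl | hm
    · simp
    · rw [Nat.cast_sub hm]; simp
  calc 2 * ((m : ℝ) - 1) ≤ 2 * ((m - 1 : ℕ) : ℝ) := by linarith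
    _ = _ := h2.symm
    _ ≤ _ := Finset.sum_le_sum fun i hi => Finset.sum_le_sum fun j hj => hle i hi j hj

/-- no two separated long paths -/
theorem Ext.no_two_paths (h : Ext H p K x) (h0 : 0 < p) (h1 : p ≤ 1 / 2) {m : ℕ}
    (hm : 1 ≤ m * (4 * p - 1)) {q : ℕ → V} (hb : ∀ i ≤ 2 * m, K.black (q i) = true)
    (hinj : ∀ i j, i ≤ 2 * m → j ≤ 2 * m → q i = q j → i = j)
    (hadj : ∀ i, i < 2 * m → (gray K).Adj (q i) (q (i + 1)))
    (hnadj : ∀ i j, i + 1 < j → j ≤ 2 * m → ¬ (gray K).Adj (q i) (q j)) : False := by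
  have hm0 : 0 < m := by
    rcases Nat.eq_zero_or_pos m with rfl | hm0
    · norm_num at hm
    · exact hm0
  set P := (Finset.range m).image q with hP
  set P' := (Finset.range m).image (fun i => q (m + 1 + i)) with hP'
  have inj1 : Set.InjOn q (Finset.range m : Set ℕ) := by
    intro i hi j hj e
    simp only [Finset.coe_range, Set.mem_Iio] at hi hj
    exact hinj i j (by omega) (by omega) e
  have inj2 : Set.InjOn (fun i => q (m + 1 + i)) (Finset.range m : Set ℕ) := by
    intro i hi j hj e
    simp only [Finset.coe_range, Set.mem_Iio] at hi hj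
    have := hinj (m + 1 + i) (m + 1 + j) (by omega) (by omega) e
    omega
  have cP : P.card = m := by rw [hP, Finset.card_image_of_injOn inj1, Finset.card_range]
  have cP' : P'.card = m := by rw [hP', Finset.card_image_of_injOn inj2, Finset.card_range]
  have hdis : ∀ v ∈ P, v ∉ P' := by
    intro v hv hv'
    rw [hP, Finset.mem_image] at hv
    rw [hP', Finset.mem_image] at hv'
    obtain ⟨i, hi, rfl⟩ := hv
    obtain ⟨j, hj, e⟩ := hv'
    rw [Finset.mem_range] at hi hj
    have := hinj _ _ (by omega) (by omega) e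
    omega
  have hcross : ∀ v ∈ P, ∀ u ∈ P', adj K v u = 0 := by
    intro v hv u hu
    rw [hP, Finset.mem_image] at hv
    rw [hP', Finset.mem_image] at hu
    obtain ⟨i, hi, rfl⟩ := hv
    obtain ⟨j, hj, rfl⟩ := hu
    rw [Finset.mem_range] at hi hj
    unfold adj
    rw [if_neg (hnadj i (m + 1 + j) (by omega) (by omega))]
  set w : V → ℝ := fun i => (if i ∈ P then 1 else 0) - (if i ∈ P' then 1 else 0) with hw
  have wsum : ∀ f : V → ℝ, ∑ i, w i * f i = ∑ i ∈ P, f i - ∑ i ∈ P', f i := by
    intro f
    simp only [hw, sub_mul, Finset.sum_sub_distrib, ite_mul, one_mul, zero_mul,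
      Finset.sum_ite_mem, Finset.univ_inter]
  have hsum : ∑ i, w i = 0 := by
    have := wsum (fun _ => 1)
    simp only [mul_one, Finset.sum_const, cP, cP', sub_self] at this
    exact this
  have hsq : ∑ i, w i ^ 2 = 2 * m := by
    have : ∀ i, w i ^ 2 = (if i ∈ P then 1 else 0) + (if i ∈ P' then 1 else 0) := by
      intro i
      by_cases a : i ∈ P
      · simp [hw, a, hdis i a]
      · by_cases b : i ∈ P'
        · simp [hw, a, b]
        · simp [hw, a, b]
    rw [Finset.sum_congr rfl fun i _ => this i, Finset.sum_add_distrib]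
    simp only [Finset.sum_ite_mem, Finset.univ_inter, Finset.sum_const, cP, cP', nsmul_eq_mul]
    ring
  have hbw : ∀ i, w i ≠ 0 → K.black i = true := by
    intro i hi
    by_cases a : i ∈ P
    · rw [hP, Finset.mem_image] at a
      obtain ⟨j, hj, rfl⟩ := a
      rw [Finset.mem_range] at hj
      exact hb j (by omega)
    · by_cases b : i ∈ P'
      · rw [hP', Finset.mem_image] at b
        obtain ⟨j, hj, rfl⟩ := b
        rw [Finset.mem_range] at hj
        exact hb _ (by omega)
      · exact absurd (by simp [hw, a, b]) hi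
  have hw0 : w ≠ 0 := by
    intro e
    rw [e] at hsq
    have hmr : (0 : ℝ) < m := by exact_mod_cast hm0
    simp at hsq
    linarith
  have ht := h.test h1 hbw hsum hw0
  have hA : ∑ i, w i * ∑ j, adj K i j * w j
      = ∑ v ∈ P, ∑ u ∈ P, adj K v u + ∑ v ∈ P', ∑ u ∈ P', adj K v u := by
    rw [wsum]
    have e : ∀ i, ∑ j, adj K i j * w j = ∑ u ∈ P, adj K i u - ∑ u ∈ P', adj K i u := by
      intro i
      rw [← wsum]
      exact Finset.sum_congr rfl fun j _ => mul_comm _ _
    have e1 : ∀ v ∈ P, ∑ j, adj K v j * w j = ∑ u ∈ P, adj K v u := by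
      intro v hv
      rw [e, Finset.sum_eq_zero (hcross v hv), sub_zero]
    have e2 : ∀ v ∈ P', ∑ j, adj K v j * w j = -∑ u ∈ P', adj K v u := by
      intro v hv
      rw [e, Finset.sum_eq_zero (fun u hu => by rw [adj_comm]; exact hcross u hu v hv), zero_sub]
    rw [Finset.sum_congr rfl e1, Finset.sum_congr rfl e2, Finset.sum_neg_distrib, sub_neg_eq_add]
  have p1 := path_sum K m q inj1 (fun i hi => hadj i (by omega))
  have p2 := path_sum K m (fun i => q (m + 1 + i)) inj2 (fun i hi => by
    have := hadj (m + 1 + i) (by omega)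
    simpa [add_assoc] using this)
  rw [hA, hsq] at ht
  rw [← hP] at p1
  rw [← hP'] at p2
  have p3 : p * (4 * ((m : ℝ) - 1)) < (1 - 2 * p) * (2 * m) := by
    refine lt_of_le_of_lt (mul_le_mul_of_nonneg_left ?_ h0.le) ht
    linarith
  nlinarith

/-- The order of an extremal colored regularity graph is bounded. -/
theorem Ext.bounded (W : Type) [Fintype W] (α : ℝ) (hα : 1 / 4 < α) : ∃ N0 : ℕ,
    ∀ (V : Type) [Fintype V] (H : SimpleGraph W) (p : ℝ) (K : CRG V) (x : V → ℝ),
      α ≤ p → p ≤ 1 / 2 → Ext H p K x → Fintype.card V ≤ N0 := by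
  set n := Fintype.card W with hn
  obtain ⟨D, hD⟩ := ramsey n 5
  set m := ⌈1 / (4 * α - 1)⌉₊ with hm
  set M := 50 * n + 79 + (D + 1) ^ (2 * m) + 1 with hM
  obtain ⟨R, hR⟩ := ramsey n M
  refine ⟨n + R, fun V _ H p K x hp h1 h => ?_⟩
  have h0 : 0 < p := by linarith
  have hq : 1 / 4 ≤ p := by linarith
  have hmp : 1 ≤ (m : ℝ) * (4 * p - 1) := by
    have a : 1 / (4 * α - 1) ≤ m := Nat.le_ceil _
    have b : 0 < 4 * α - 1 := by linarith
    rw [div_le_iff₀ b] at a
    have c : (0 : ℝ) ≤ m := Nat.cast_nonneg m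
    nlinarith
  by_contra hcard
  push Not at hcard
  -- white vertices
  set Wh : Finset V := Finset.univ.filter (fun v => K.black v = false) with hWh
  set Bl : Finset V := Finset.univ.filter (fun v => ¬ K.black v = false) with hBl
  have hWhc : Wh.card < n := by
    refine clique_lt h.avoid Wh ?_
    intro u hu v hv huv
    have hu' : K.black u = false := by simpa [hWh] using hu
    have hv' : K.black v = false := by simpa [hWh] using hv
    exact ⟨huv, h.white_white h1 huv hu' hv'⟩
  have hsum : Wh.card + Bl.card = Fintype.card V := by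
    rw [hWh, hBl, Finset.card_filter_add_card_filter_not, Finset.card_univ]
  have hBlb : ∀ v ∈ Bl, K.black v = true := by
    intro v hv
    have : ¬ K.black v = false := by simpa [hBl] using hv
    simpa using this
  rcases hR V (gray K) Bl (by omega) with ⟨C, -, hCc, hCq⟩ | ⟨S, hSB, hSc, hSi⟩
  · exact absurd (clique_lt h.avoid C hCq) (by omega)
  have hSb : ∀ s ∈ S, K.black s = true := fun s hs => hBlb s (hSB hs)
  set T : Set V := {v | K.black v = true ∧ (S.filter (fun s => ¬ (gray K).Adj s v)).card ≤ 48} with hT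
  set N : Finset V := Finset.univ.filter (fun v => ¬ (v ∈ T ∨ K.black v = false)) with hN
  have hNmem : ∀ v, v ∈ N ↔ ¬ (v ∈ T ∨ K.black v = false) := fun v => by simp [hN]
  have hNb : ∀ v ∈ N, K.black v = true := by
    intro v hv
    have := (hNmem v).1 hv
    push Not at this
    simpa using this.2
  have hN49 : ∀ v ∈ N, 49 ≤ (S.filter (fun s => ¬ (gray K).Adj s v)).card := by
    intro v hv
    have h2 := (hNmem v).1 hv
    push Not at h2
    by_contra hh
    exact h2.1 ⟨hNb v hv, by omega⟩
  have hN4 : ∀ v ∈ N, (S.filter (fun s => (gray K).Adj s v)).card ≤ 4 := by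
    intro v hv
    by_contra hh
    push Not at hh
    have hvS : v ∉ S := by
      intro hvS
      have : S.filter (fun s => (gray K).Adj s v) = ∅ := by
        rw [Finset.filter_eq_empty_iff]
        intro s hs
        exact hSi s hs v hvS
      rw [this] at hh
      simp at hh
    obtain ⟨S1, hS1, hS1c⟩ := Finset.exists_subset_card_eq (show 5 ≤ _ from hh)
    obtain ⟨S2, hS2, hS2c⟩ := Finset.exists_subset_card_eq (hN49 v hv)
    have s1 : ∀ s ∈ S1, s ∈ S ∧ (gray K).Adj s v := fun s hs => Finset.mem_filter.1 (hS1 hs)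
    have s2 : ∀ s ∈ S2, s ∈ S ∧ ¬ (gray K).Adj s v := fun s hs => Finset.mem_filter.1 (hS2 hs)
    refine h.crisp hq h1 (hNb v hv) (fun s hs => hSb s (s1 s hs).1) (fun s hs => hSb s (s2 s hs).1)
      ?_ (fun s hs => (s1 s hs).2.symm) (fun s hs hh => (s2 s hs).2 hh.symm) ?_ ?_ hS1c hS2c
    · intro s hs t ht
      have a : s ∈ S := by
        rcases Finset.mem_union.1 hs with h' | h'
        · exact (s1 s h').1
        · exact (s2 s h').1
      have b : t ∈ S := by
        rcases Finset.mem_union.1 ht with h' | h'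
        · exact (s1 t h').1
        · exact (s2 t h').1
      exact hSi s a t b
    · exact fun hh => hvS (s2 v hh).1
    · rw [Finset.disjoint_left]
      exact fun s a b => (s2 s b).2 (s1 s a).2
  have hSN : S ⊆ N := by
    intro s hs
    rw [hNmem]
    rintro (hh | hh)
    · have : S.filter (fun t => ¬ (gray K).Adj t s) = S := by
        rw [Finset.filter_eq_self]
        intro t ht
        exact hSi t ht s hs
      have h2 := hh.2
      rw [this, hSc] at h2
      omega
    · rw [hSb s hs] at hh
      exact absurd hh (by simp)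
  have hNcard : M ≤ N.card := hSc ▸ Finset.card_le_card hSN
  have hmass := h.mass h0 h1 (S := S) (N := N) (T := T) (by omega)
    (fun v hv => hv.2) hNmem (by omega)
  -- degree bound
  have hdeg : ∀ v ∈ N, (N.filter (fun u => (gray K).Adj v u)).card ≤ D := by
    intro v hv
    by_contra hh
    push Not at hh
    rcases hD V (gray K) _ hh.le with ⟨C, -, hCc, hCq⟩ | ⟨S1, hS1, hS1c, hS1i⟩
    · exact absurd (clique_lt h.avoid C hCq) (by omega)
    have s1 : ∀ s ∈ S1, s ∈ N ∧ (gray K).Adj v s := fun s hs => Finset.mem_filter.1 (hS1 hs)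
    set Bad : Finset V := (insert v S1) ∪ (insert v S1).biUnion
      (fun u => S.filter (fun s => (gray K).Adj s u)) with hBad
    have hBadc : Bad.card ≤ 30 := by
      have a : (insert v S1).card ≤ 6 := (Finset.card_insert_le _ _).trans (by omega)
      have b : ((insert v S1).biUnion (fun u => S.filter (fun s => (gray K).Adj s u))).card
          ≤ (insert v S1).card * 4 := by
        refine Finset.card_biUnion_le_card_mul _ _ _ ?_
        intro u hu
        rcases Finset.mem_insert.1 hu with rfl | hu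
        · exact hN4 u hv
        · exact hN4 u (s1 u hu).1
      have c := Finset.card_union_le (insert v S1) ((insert v S1).biUnion
        (fun u => S.filter (fun s => (gray K).Adj s u)))
      rw [← hBad] at c
      omega
    have hbig : 49 ≤ (S \ Bad).card := by
      have := Finset.le_card_sdiff Bad S
      omega
    obtain ⟨S2, hS2, hS2c⟩ := Finset.exists_subset_card_eq hbig
    have s2 : ∀ s ∈ S2, s ∈ S ∧ s ∉ Bad := fun s hs => Finset.mem_sdiff.1 (hS2 hs)
    have s2v : ∀ s ∈ S2, s ≠ v := fun s hs e => (s2 s hs).2 (by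
      rw [hBad, e]; exact Finset.mem_union_left _ (Finset.mem_insert_self _ _))
    have s2S : ∀ s ∈ S2, s ∉ S1 := fun s hs e => (s2 s hs).2 (by
      rw [hBad]; exact Finset.mem_union_left _ (Finset.mem_insert_of_mem e))
    have s2a : ∀ s ∈ S2, ∀ u ∈ insert v S1, ¬ (gray K).Adj s u := fun s hs u hu e => (s2 s hs).2 (by
      rw [hBad]
      exact Finset.mem_union_right _ (Finset.mem_biUnion.2 ⟨u, hu, Finset.mem_filter.2
        ⟨(s2 s hs).1, e⟩⟩))
    refine h.crisp hq h1 (hNb v hv) (fun s hs => hNb s (s1 s hs).1) (fun s hs => hSb s (s2 s hs).1)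
      ?_ (fun s hs => (s1 s hs).2) (fun s hs hh => s2a s hs v (Finset.mem_insert_self _ _) hh.symm)
      (fun hh => s2v v hh rfl) ?_ hS1c hS2c
    · intro s hs t ht
      rcases Finset.mem_union.1 hs with hs | hs
      · rcases Finset.mem_union.1 ht with ht | ht
        · exact hS1i s hs t ht
        · exact fun e => s2a t ht s (Finset.mem_insert_of_mem hs) e.symm
      · rcases Finset.mem_union.1 ht with ht | ht
        · exact s2a s hs t (Finset.mem_insert_of_mem ht)
        · exact hSi s (s2 s hs).1 t (s2 t ht).1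
    · rw [Finset.disjoint_left]
      exact fun s a b => s2S s b a
  -- balls
  have hNne : N.Nonempty := Finset.card_pos.1 (by omega)
  obtain ⟨v0, hv0⟩ := hNne
  set B : ℕ → Finset V := fun j => Nat.rec {v0}
    (fun _ b => N.filter (fun u => u ∈ b ∨ ∃ u' ∈ b, (gray K).Adj u' u)) j with hB
  have B0 : B 0 = {v0} := rfl
  have Bs : ∀ j, B (j + 1) = N.filter (fun u => u ∈ B j ∨ ∃ u' ∈ B j, (gray K).Adj u' u) :=
    fun j => rfl
  have BN : ∀ j, B j ⊆ N := by
    intro j
    rcases j with _ | j
    · rw [B0]; simpa using hv0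
    · rw [Bs]; exact Finset.filter_subset _ _
  have Bmono1 : ∀ j, B j ⊆ B (j + 1) := by
    intro j u hu
    rw [Bs]
    exact Finset.mem_filter.2 ⟨BN j hu, Or.inl hu⟩
  have Bmono : ∀ i j, i ≤ j → B i ⊆ B j := by
    intro i j hij
    induction hij with
    | refl => exact Finset.Subset.refl _
    | step _ ih => exact ih.trans (Bmono1 _)
  have Bcard : ∀ j, (B j).card ≤ (D + 1) ^ j := by
    intro j
    induction j with
    | zero => rw [B0]; simp
    | succ j ih =>
      have hsub : B (j + 1) ⊆ B j ∪ (B j).biUnion (fun u' => N.filter (fun u => (gray K).Adj u' u)) := by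
        intro u hu
        rw [Bs] at hu
        obtain ⟨huN, hu'⟩ := Finset.mem_filter.1 hu
        rcases hu' with hu' | ⟨u', hu', ha⟩
        · exact Finset.mem_union_left _ hu'
        · exact Finset.mem_union_right _ (Finset.mem_biUnion.2 ⟨u', hu', Finset.mem_filter.2 ⟨huN, ha⟩⟩)
      have c1 := Finset.card_le_card hsub
      have c2 := Finset.card_union_le (B j) ((B j).biUnion (fun u' => N.filter (fun u => (gray K).Adj u' u)))
      have c3 : ((B j).biUnion (fun u' => N.filter (fun u => (gray K).Adj u' u))).card ≤ (B j).card * D :=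
        Finset.card_biUnion_le_card_mul _ _ _ (fun u hu => hdeg u (BN j hu))
      calc (B (j + 1)).card ≤ (B j).card + (B j).card * D := by omega
        _ = (B j).card * (D + 1) := by ring
        _ ≤ (D + 1) ^ j * (D + 1) := Nat.mul_le_mul_right _ ih
        _ = (D + 1) ^ (j + 1) := by ring
  have hm0 : 0 < m := by
    rcases Nat.eq_zero_or_pos m with h' | h'
    · rw [h'] at hmp; norm_num at hmp
    · exact h'
  -- a vertex at level 2 m
  have hlev : ∃ u ∈ B (2 * m), ∀ j < 2 * m, u ∉ B j := by
    have hne : B (2 * m - 1) ≠ N := by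
      intro e
      have c1 := Bcard (2 * m - 1)
      rw [e] at c1
      have c2 : (D + 1) ^ (2 * m - 1) ≤ (D + 1) ^ (2 * m) := Nat.pow_le_pow_right (by omega) (by omega)
      omega
    obtain ⟨u, hu, v, hvN, hvB, hadj⟩ := h.conn h0 h1 hNb hmass (BN (2 * m - 1))
      ⟨v0, Bmono 0 _ (Nat.zero_le _) (by rw [B0]; simp)⟩ hne
    refine ⟨v, ?_, fun j hj hh => hvB (Bmono j _ (by omega) hh)⟩
    have e : 2 * m = (2 * m - 1) + 1 := by omega
    rw [e, Bs]
    exact Finset.mem_filter.2 ⟨hvN, Or.inr ⟨u, hu, hadj⟩⟩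
  have hpath : ∀ J, ∀ u ∈ B J, (∀ j < J, u ∉ B j) → ∃ q : ℕ → V, q J = u ∧
      (∀ i ≤ J, q i ∈ B i ∧ ∀ j < i, q i ∉ B j) ∧ ∀ i < J, (gray K).Adj (q i) (q (i + 1)) := by
    intro J
    induction J with
    | zero =>
      intro u hu _
      refine ⟨fun _ => u, rfl, ?_, ?_⟩
      · intro i hi
        obtain rfl : i = 0 := by omega
        exact ⟨hu, fun j hj => absurd hj (by omega)⟩
      · intro i hi; exact absurd hi (by omega)
    | succ J ih =>
      intro u hu hnu
      have hu2 := hu
      rw [Bs] at hu2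
      rcases (Finset.mem_filter.1 hu2).2 with h' | ⟨u', hu', ha⟩
      · exact absurd h' (hnu J (by omega))
      obtain ⟨q, q1, q2, q3⟩ := ih u' hu' (by
        intro j hj hj'
        refine hnu (j + 1) (by omega) ?_
        rw [Bs]
        exact Finset.mem_filter.2 ⟨BN (J + 1) hu, Or.inr ⟨u', hj', ha⟩⟩)
      refine ⟨fun i => if i = J + 1 then u else q i, by simp, ?_, ?_⟩
      · intro i hi
        by_cases hi' : i = J + 1
        · subst hi'
          simp only [if_true]
          exact ⟨hu, hnu⟩
        · simp only [if_neg hi']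
          exact q2 i (by omega)
      · intro i hi
        have e1 : ¬ i = J + 1 := by omega
        by_cases hi' : i = J
        · subst hi'
          simp only [if_neg e1, if_true, q1]
          exact ha
        · have e2 : ¬ i + 1 = J + 1 := by omega
          simp only [if_neg e1, if_neg e2]
          exact q3 i (by omega)
  obtain ⟨u, hu, hnu⟩ := hlev
  obtain ⟨q, -, q2, q3⟩ := hpath (2 * m) u hu hnu
  refine h.no_two_paths h0 h1 hmp (q := q) (fun i hi => hNb _ (BN i (q2 i hi).1)) ?_ q3 ?_
  · intro i j hi hj e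
    by_contra hne
    rcases Nat.lt_or_gt_of_ne hne with hlt | hlt
    · exact (q2 j hj).2 i hlt (e ▸ (q2 i hi).1)
    · exact (q2 i hi).2 j hlt (e ▸ (q2 j hj).1)
  · intro i j hij hj hadj
    refine (q2 j hj).2 (i + 1) hij ?_
    rw [Bs]
    exact Finset.mem_filter.2 ⟨BN j (q2 j hj).1, Or.inr ⟨q i, (q2 i (by omega)).1, hadj⟩⟩

end

end Pool.Agent.Crg
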