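import Pool.Agent.Crg.Main

set_option autoImplicit false

namespace Pool.Agent.Crg

open scoped BigOperators
open Finset

/-- The vertex set of `H` can be partitioned into `i` independent sets and `j` cliques
(some of them possibly empty). -/
def SplitColorable {W : Type} (H : SimpleGraph W) (i j : ℕ) : Prop :=
  ∃ φ : W → Fin i ⊕ Fin j, ∀ u v, u ≠ v → φ u = φ v →
    ((φ u).isLeft = true → ¬ H.Adj u v) ∧ ((φ u).isRight = true → H.Adj u v)

section
open Classical

/-- `a` white vertices with all edges gray -/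
def whites (a : ℕ) : CRG (Fin a) where
  black _ := false
  col _ _ := 1
  symm _ _ := rfl

theorem avoids_whites {W : Type} {H : SimpleGraph W} {a : ℕ} (h : ¬ H.Colorable a) :
    Avoids H (whites a) := by
  rintro ⟨φ, hφ⟩
  refine h ⟨SimpleGraph.Coloring.mk φ ?_⟩
  intro u v huv e
  rcases (hφ u v huv.ne).1 huv with ⟨_, hb⟩ | ⟨hn, _⟩
  · exact absurd hb (by simp [whites])
  · exact hn e

theorem ed_le_whites {W : Type} {H : SimpleGraph W} {a : ℕ} (ha : 0 < a) (h : ¬ H.Colorable a)
    {p : ℝ} (h0 : 0 ≤ p) (h1 : p ≤ 1) : ed H p ≤ p / a := by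
  have har : (0 : ℝ) < a := by exact_mod_cast ha
  refine (ed_le H h0 h1 (whites a) ha (avoids_whites h)).trans ?_
  have hs : Simp (fun _ : Fin a => 1 / (a : ℝ)) := by
    refine ⟨fun _ => by positivity, ?_⟩
    simp only [Finset.sum_const, Finset.card_univ, Fintype.card_fin, nsmul_eq_mul]
    field_simp
  refine (gfun_le (whites a) p hs).trans (le_of_eq ?_)
  unfold form
  have : ∀ i j : Fin a, (1 / (a : ℝ)) * mat (whites a) p i j * (1 / (a : ℝ))
      = if i = j then p / a ^ 2 else 0 := by
    intro i j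
    unfold mat
    by_cases hij : i = j
    · rw [if_pos hij, if_pos hij, if_neg (by simp [whites])]
      field_simp
    · rw [if_neg hij, if_neg hij, if_neg (by simp [whites]), if_neg (by
        show ¬ (1 : Fin 3) = 2
        decide)]
      ring
  simp only [this, Finset.sum_ite_eq, Finset.mem_univ, if_true, Finset.sum_const, Finset.card_univ,
    Fintype.card_fin, nsmul_eq_mul]
  field_simp

variable {W V : Type} [Fintype V] {H : SimpleGraph W} {p : ℝ} {K : CRG V} {x : V → ℝ}

theorem Ext.all_gray (h : Ext H (1 / 2) K x) {i j : V} (hij : i ≠ j) : K.col i j = 1 := by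
  have h2 := h.no_black_edge le_rfl hij
  by_contra hc
  have hc0 : K.col i j = 0 := by
    generalize K.col i j = c at *
    fin_cases c <;> simp_all
  have hw : ∑ k, (Pi.single i 1 - (1 : ℝ) • Pi.single j 1 : V → ℝ) k = 0 := by
    simp [Pi.single_apply]
  have hw0 : (Pi.single i 1 - (1 : ℝ) • Pi.single j 1 : V → ℝ) ≠ 0 := by
    intro h0
    have := congrFun h0 i
    simp [hij] at this
  have := h.form_pos hw hw0
  rw [form_sub_smul, form_eq_bil, form_eq_bil, bil_single, bil_single, bil_single] at this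
  have e : mat K (1 / 2) i j = 1 / 2 := by
    unfold mat; rw [if_neg hij, if_pos hc0]
  have a : mat K (1 / 2) i i ≤ 1 / 2 := by unfold mat; split_ifs <;> norm_num
  have b : mat K (1 / 2) j j ≤ 1 / 2 := by unfold mat; split_ifs <;> norm_num
  rw [e] at this
  linarith

theorem Ext.card_le_of_split (h : Ext H (1 / 2) K x) {r : ℕ}
    (hr : ∀ i j, i + j = r + 1 → SplitColorable H i j) : Fintype.card V ≤ r := by
  by_contra hlt
  push Not at hlt
  have hsum : Fintype.card {v // K.black v = false} + Fintype.card {v // K.black v = true}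
      = Fintype.card V := by
    have := Fintype.card_subtype_compl (fun v : V => K.black v = false)
    have e : Fintype.card {v // ¬ K.black v = false} = Fintype.card {v // K.black v = true} := by
      refine Fintype.card_congr (Equiv.subtypeEquivRight fun v => ?_)
      simp
    rw [e] at this
    have := Fintype.card_subtype_le (fun v : V => K.black v = false)
    omega
  obtain ⟨φ, hφ⟩ := hr (Min.min (Fintype.card {v // K.black v = false}) (r + 1))
    (r + 1 - Min.min (Fintype.card {v // K.black v = false}) (r + 1)) (by omega)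
  obtain ⟨e1⟩ := Function.Embedding.nonempty_of_card_le
    (α := Fin (Min.min (Fintype.card {v // K.black v = false}) (r + 1)))
    (β := {v // K.black v = false}) (by rw [Fintype.card_fin]; omega)
  obtain ⟨e2⟩ := Function.Embedding.nonempty_of_card_le
    (α := Fin (r + 1 - Min.min (Fintype.card {v // K.black v = false}) (r + 1)))
    (β := {v // K.black v = true}) (by rw [Fintype.card_fin]; omega)
  set ψ : _ → V := Sum.elim (fun t => (e1 t).1) (fun t => (e2 t).1) with hψ
  have hinj : Function.Injective ψ := by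
    intro s t hst
    rcases s with s | s <;> rcases t with t | t
    · exact congrArg _ (e1.injective (Subtype.ext hst))
    · exfalso
      have a := (e1 s).2
      have b := (e2 t).2
      simp only [hψ, Sum.elim_inl, Sum.elim_inr] at hst
      rw [hst, b] at a
      exact absurd a (by simp)
    · exfalso
      have a := (e2 s).2
      have b := (e1 t).2
      simp only [hψ, Sum.elim_inl, Sum.elim_inr] at hst
      rw [hst, b] at a
      exact absurd a (by simp)
    · exact congrArg _ (e2.injective (Subtype.ext hst))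
  refine h.avoid ⟨fun w => ψ (φ w), fun u v huv => ?_⟩
  by_cases e : φ u = φ v
  · obtain ⟨hl, hrr⟩ := hφ u v huv e
    have e' : ψ (φ u) = ψ (φ v) := by rw [e]
    rcases hu : φ u with s | s
    · have hna := hl (by rw [hu]; rfl)
      refine ⟨fun ha => absurd ha hna, fun _ => Or.inl ⟨e', ?_⟩⟩
      show K.black (ψ (φ u)) = false
      rw [hu]
      exact (e1 s).2
    · have hna := hrr (by rw [hu]; rfl)
      refine ⟨fun _ => Or.inl ⟨e', ?_⟩, fun ha => absurd hna ha⟩
      show K.black (ψ (φ u)) = true
      rw [hu]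
      exact (e2 s).2
  · have hne : ψ (φ u) ≠ ψ (φ v) := fun e' => e (hinj e')
    have hcol := h.all_gray hne
    exact ⟨fun _ => Or.inr ⟨hne, by rw [hcol]; decide⟩, fun _ => Or.inr ⟨hne, by rw [hcol]; decide⟩⟩

theorem gfun_half_ge {W : Type} {H : SimpleGraph W} {r : ℕ} (hr0 : 0 < r)
    (hr : ∀ i j, i + j = r + 1 → SplitColorable H i j) {k : ℕ} (hk : 0 < k) (K : CRG (Fin k))
    (hK : Avoids H K) : 1 / (2 * (r : ℝ)) ≤ gfun K (1 / 2) := by
  obtain ⟨j, K', x, hj, _, hext, hform, hle⟩ := exists_ext hk K hK (1 / 2)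
  refine le_trans ?_ hle
  rw [← hform]
  have hcard := hext.card_le_of_split hr
  rw [Fintype.card_fin] at hcard
  have e : form K' (1 / 2) x = (1 / 2) * ∑ i, x i ^ 2 := by
    unfold form
    rw [Finset.mul_sum]
    refine Finset.sum_congr rfl fun i _ => ?_
    have : ∀ l, x i * mat K' (1 / 2) i l * x l = if i = l then (1 / 2) * x i ^ 2 else 0 := by
      intro l
      unfold mat
      by_cases hil : i = l
      · subst hil
        rw [if_pos rfl, if_pos rfl]
        split_ifs <;> ring
      · rw [if_neg hil, if_neg hil, if_neg (by rw [hext.all_gray hil]; decide),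
          if_neg (by rw [hext.all_gray hil]; decide)]
        ring
    rw [Finset.sum_congr rfl fun l _ => this l]
    simp
  rw [e]
  have hcs := sq_sum_le_card_mul_sum_sq (s := (Finset.univ : Finset (Fin j))) (f := x)
  rw [hext.simp.2, Finset.card_univ, Fintype.card_fin] at hcs
  have hjr : (j : ℝ) ≤ r := by exact_mod_cast hcard
  have hrp : (0 : ℝ) < r := by exact_mod_cast hr0
  have hs : 0 ≤ ∑ i, x i ^ 2 := Finset.sum_nonneg fun i _ => sq_nonneg _
  have h1 : 1 ≤ (r : ℝ) * ∑ i, x i ^ 2 := by nlinarith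
  rw [div_le_iff₀ (by positivity)]
  nlinarith

theorem form_lip {V : Type} [Fintype V] (K : CRG V) (p q : ℝ) {u : V → ℝ} (hu : Simp u) :
    form K p u ≤ form K q u + |p - q| := by
  have hm : ∀ i j, mat K p i j ≤ mat K q i j + |p - q| := by
    intro i j
    have a := le_abs_self (p - q)
    have b := neg_abs_le (p - q)
    have c := abs_nonneg (p - q)
    unfold mat
    split_ifs <;> linarith
  have e : (∑ i, ∑ j, u i * |p - q| * u j) = |p - q| := by
    have : ∀ i, ∑ j, u i * |p - q| * u j = u i * |p - q| := by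
      intro i
      rw [← Finset.mul_sum, hu.2, mul_one]
    rw [Finset.sum_congr rfl fun i _ => this i, ← Finset.sum_mul, hu.2, one_mul]
  calc form K p u ≤ form K q u + ∑ i, ∑ j, u i * |p - q| * u j := by
        unfold form
        rw [← Finset.sum_add_distrib]
        refine Finset.sum_le_sum fun i _ => ?_
        rw [← Finset.sum_add_distrib]
        refine Finset.sum_le_sum fun j _ => ?_
        have h1 := hu.1 i
        have h2 := hu.1 j
        have h3 := hm i j
        calc u i * mat K p i j * u j ≤ u i * (mat K q i j + |p - q|) * u j :=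
              mul_le_mul_of_nonneg_right (mul_le_mul_of_nonneg_left h3 h1) h2
          _ = _ := by ring
    _ = _ := by rw [e]

theorem gfun_lip {V : Type} [Fintype V] [Nonempty V] (K : CRG V) (p q : ℝ) :
    gfun K p ≤ gfun K q + |p - q| := by
  obtain ⟨x, hx, hmin⟩ := exists_min_form K q
  rw [gfun_eq hx hmin]
  exact (gfun_le K p hx).trans (form_lip K p q hx)

theorem ed_lip {W : Type} {H : SimpleGraph W} (hne : ∃ (k : ℕ) (K : CRG (Fin k)), 0 < k ∧ Avoids H K)
    {p q : ℝ} (hp0 : 0 ≤ p) (hp1 : p ≤ 1) : ed H p ≤ ed H q + |p - q| := by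
  obtain ⟨k, K, hk, hK⟩ := hne
  have : ed H p - |p - q| ≤ ed H q := by
    refine le_csInf ⟨_, k, K, hk, hK, rfl⟩ ?_
    rintro e ⟨k, K, hk, hK, rfl⟩
    have : Nonempty (Fin k) := ⟨⟨0, hk⟩⟩
    have h1 := ed_le H hp0 hp1 K hk hK
    have h2 := gfun_lip K p q
    linarith
  linarith

theorem ed_continuousOn {W : Type} {H : SimpleGraph W}
    (hne : ∃ (k : ℕ) (K : CRG (Fin k)), 0 < k ∧ Avoids H K) :
    ContinuousOn (ed H) (Set.Icc 0 1) := by
  have : LipschitzOnWith 1 (ed H) (Set.Icc 0 1) := by
    refine LipschitzOnWith.of_dist_le_mul fun p hp q hq => ?_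
    rw [Real.dist_eq, Real.dist_eq, NNReal.coe_one, one_mul, abs_sub_le_iff]
    constructor
    · have := ed_lip hne (p := p) (q := q) hp.1 hp.2; linarith
    · have := ed_lip hne (p := q) (q := p) hq.1 hq.2
      rw [abs_sub_comm] at this; linarith
  exact this.continuousOn

/-- An explicit class of graphs for which bounded order suffices. -/
theorem sup_eq_class {W : Type} [Fintype W] (hW : 2 ≤ Fintype.card W) (H : SimpleGraph W)
    {r a b : ℕ} (hr : ∀ i j, i + j = r + 1 → SplitColorable H i j)
    (ha : ¬ H.Colorable a) (hb : ¬ Hᶜ.Colorable b) (hra : r ≤ 2 * a) (hrb : r ≤ 2 * b) :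
    ∃ N : ℕ, sSup (edN H N '' Set.Icc 0 1) = sSup (ed H '' Set.Icc 0 1) := by
  have hr0 : 0 < r := by
    by_contra h0
    obtain rfl : r = 0 := by omega
    obtain ⟨φ, hφ⟩ := hr 1 0 rfl
    obtain ⟨ψ, hψ⟩ := hr 0 1 rfl
    obtain ⟨u, v, huv⟩ := Fintype.one_lt_card_iff.1 (by omega : 1 < Fintype.card W)
    have e1 : φ u = φ v := by
      rcases φ u with s | s
      · rcases φ v with t | t
        · congr 1; exact Subsingleton.elim _ _
        · exact t.elim0
      · exact s.elim0
    have e2 : ψ u = ψ v := by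
      rcases ψ u with s | s
      · exact s.elim0
      · rcases ψ v with t | t
        · exact t.elim0
        · congr 1; exact Subsingleton.elim _ _
    have l1 : (φ u).isLeft = true := by
      rcases φ u with s | s
      · rfl
      · exact s.elim0
    have l2 : (ψ u).isRight = true := by
      rcases ψ u with s | s
      · exact s.elim0
      · rfl
    exact (hφ u v huv e1).1 l1 ((hψ u v huv e2).2 l2)
  have ha0 : 0 < a := by omega
  have hb0 : 0 < b := by omega
  have hne : ∃ (k : ℕ) (K : CRG (Fin k)), 0 < k ∧ Avoids H K :=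
    ⟨a, whites a, ha0, avoids_whites ha⟩
  have hrr : (0 : ℝ) < r := by exact_mod_cast hr0
  have har : (0 : ℝ) < a := by exact_mod_cast ha0
  have hbr : (0 : ℝ) < b := by exact_mod_cast hb0
  have hhalf : 1 / (2 * (r : ℝ)) ≤ ed H (1 / 2) := by
    obtain ⟨k, K, hk, hK⟩ := hne
    refine le_csInf ⟨_, k, K, hk, hK, rfl⟩ ?_
    rintro e ⟨k, K, hk, hK, rfl⟩
    exact gfun_half_ge hr0 hr hk K hK
  have hlow : ∀ q, 0 ≤ q → q ≤ 1 / 4 → ed H q ≤ ed H (1 / 2) := by
    intro q hq0 hq1
    refine (ed_le_whites ha0 ha hq0 (by linarith)).trans (le_trans ?_ hhalf)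
    rw [div_le_div_iff₀ har (by positivity)]
    have : (r : ℝ) ≤ 2 * a := by exact_mod_cast hra
    nlinarith
  have hhigh : ∀ q, 3 / 4 ≤ q → q ≤ 1 → ed H q ≤ ed H (1 / 2) := by
    intro q hq0 hq1
    rw [← ed_compl H q]
    refine (ed_le_whites hb0 hb (by linarith) (by linarith)).trans (le_trans ?_ hhalf)
    rw [div_le_div_iff₀ hbr (by positivity)]
    have : (r : ℝ) ≤ 2 * b := by exact_mod_cast hrb
    nlinarith
  obtain ⟨p, hp, hmax⟩ := isCompact_Icc.exists_isMaxOn
    (⟨0, by norm_num⟩ : (Set.Icc (0 : ℝ) 1).Nonempty) (ed_continuousOn hne)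
  have hmax' : ∀ q ∈ Set.Icc (0 : ℝ) 1, ed H q ≤ ed H p := fun q hq => hmax hq
  by_cases h1 : 1 / 4 < p
  · by_cases h2 : p < 3 / 4
    · exact sup_eq H h1 h2 hmax'
    · exact sup_eq H (p := 1 / 2) (by norm_num) (by norm_num)
        fun q hq => (hmax' q hq).trans (hhigh p (by linarith) hp.2)
  · exact sup_eq H (p := 1 / 2) (by norm_num) (by norm_num)
      fun q hq => (hmax' q hq).trans (hlow p hp.1 (by linarith))

end

end Pool.Agent.Crg
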