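import Mathlib

set_option autoImplicit false

/-!
# Colored regularity graphs
-/

namespace Pool.Agent.Crg

open scoped BigOperators

/-- A colored regularity graph with vertex set `V`: `black v` says that the vertex `v` is black
(otherwise it is white); `col u v` is the color of the edge `uv` for `u ≠ v`:
`0` is white, `1` is gray, `2` is black. -/
structure CRG (V : Type) where
  black : V → Bool
  col : V → V → Fin 3
  symm : ∀ u v, col u v = col v u

/-- `φ` is a colored homomorphism from the graph `H` to the colored regularity graph `K`. -/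
def IsHom {W V : Type} (H : SimpleGraph W) (K : CRG V) (φ : W → V) : Prop :=
  ∀ u v, u ≠ v →
    (H.Adj u v → (φ u = φ v ∧ K.black (φ u) = true) ∨ (φ u ≠ φ v ∧ K.col (φ u) (φ v) ≠ 0)) ∧
    (¬ H.Adj u v → (φ u = φ v ∧ K.black (φ u) = false) ∨ (φ u ≠ φ v ∧ K.col (φ u) (φ v) ≠ 2))

/-- `K` admits no colored homomorphism from `H`. -/
def Avoids {W V : Type} (H : SimpleGraph W) (K : CRG V) : Prop := ¬ ∃ φ : W → V, IsHom H K φ

section
open Classical

/-- The matrix `M_K(p) = p W_K + (1 - p) B_K`. -/
noncomputable def mat {V : Type} (K : CRG V) (p : ℝ) (i j : V) : ℝ :=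
  if i = j then (if K.black i = true then 1 - p else p)
  else (if K.col i j = 0 then p else if K.col i j = 2 then 1 - p else 0)

/-- The quadratic form `uᵀ M_K(p) u`. -/
noncomputable def form {V : Type} [Fintype V] (K : CRG V) (p : ℝ) (u : V → ℝ) : ℝ :=
  ∑ i, ∑ j, u i * mat K p i j * u j

/-- `g_K(p)`: the minimum of `uᵀ M_K(p) u` over `u ≥ 0` with `∑ u = 1`. -/
noncomputable def gfun {V : Type} [Fintype V] (K : CRG V) (p : ℝ) : ℝ :=
  sInf {e : ℝ | ∃ u : V → ℝ, (∀ i, 0 ≤ u i) ∧ ∑ i, u i = 1 ∧ e = form K p u}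

/-- `inf g_K(p)` over all colored regularity graphs `K` admitting no colored homomorphism from `H`. -/
noncomputable def ed {W : Type} (H : SimpleGraph W) (p : ℝ) : ℝ :=
  sInf {e : ℝ | ∃ (k : ℕ) (K : CRG (Fin k)), 0 < k ∧ Avoids H K ∧ e = gfun K p}

/-- `min g_K(p)` over the colored regularity graphs `K` of order at most `N` admitting no colored
homomorphism from `H`. -/
noncomputable def edN {W : Type} (H : SimpleGraph W) (N : ℕ) (p : ℝ) : ℝ :=
  sInf {e : ℝ | ∃ (k : ℕ) (K : CRG (Fin k)), 0 < k ∧ k ≤ N ∧ Avoids H K ∧ e = gfun K p}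

end

end Pool.Agent.Crg
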