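import Pool.Agent.Crg.Card

set_option autoImplicit false

namespace Pool.Agent.Crg

open scoped BigOperators
open Finset

section
open Classical

theorem simp_iff {V : Type} [Fintype V] (u : V → ℝ) : Simp u ↔ u ∈ stdSimplex ℝ V := Iff.rfl

theorem continuous_form {V : Type} [Fintype V] (K : CRG V) (p : ℝ) :
    Continuous (fun u : V → ℝ => form K p u) := by
  unfold form; fun_prop

theorem exists_simp (V : Type) [Fintype V] [Nonempty V] : ∃ u : V → ℝ, Simp u := by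
  obtain ⟨i⟩ := ‹Nonempty V›
  refine ⟨Pi.single i 1, fun j => ?_, by simp⟩
  by_cases h : j = i
  · subst h; simp
  · simp [Pi.single_apply, h]

theorem nonempty_of_simp {V : Type} [Fintype V] {u : V → ℝ} (h : Simp u) : Nonempty V := by
  by_contra hne
  rw [not_nonempty_iff] at hne
  have := h.2
  simp at this

theorem exists_min_form {V : Type} [Fintype V] [Nonempty V] (K : CRG V) (p : ℝ) :
    ∃ x : V → ℝ, Simp x ∧ ∀ y, Simp y → form K p x ≤ form K p y := by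
  obtain ⟨x, hx, hmin⟩ := (isCompact_stdSimplex ℝ V).exists_isMinOn
    (exists_simp V) (continuous_form K p).continuousOn
  exact ⟨x, hx, fun y hy => hmin hy⟩

theorem gfun_eq {V : Type} [Fintype V] {K : CRG V} {p : ℝ} {x : V → ℝ} (hx : Simp x)
    (hmin : ∀ y, Simp y → form K p x ≤ form K p y) : gfun K p = form K p x := by
  unfold gfun
  apply le_antisymm
  · refine csInf_le ⟨form K p x, ?_⟩ ⟨x, hx.1, hx.2, rfl⟩
    rintro e ⟨u, hu, hs, rfl⟩
    exact hmin u ⟨hu, hs⟩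
  · refine le_csInf ⟨_, x, hx.1, hx.2, rfl⟩ ?_
    rintro e ⟨u, hu, hs, rfl⟩
    exact hmin u ⟨hu, hs⟩

theorem gfun_le {V : Type} [Fintype V] (K : CRG V) (p : ℝ) {x : V → ℝ} (hx : Simp x) :
    gfun K p ≤ form K p x := by
  haveI := nonempty_of_simp hx
  obtain ⟨x0, h0, hmin⟩ := exists_min_form K p
  rw [gfun_eq h0 hmin]
  exact hmin x hx

instance (V : Type) [Finite V] : Finite (CRG V) := by
  refine Finite.of_injective (fun K : CRG V => (K.black, K.col)) ?_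
  rintro ⟨b, c, s⟩ ⟨b', c', s'⟩ h
  simp only [Prod.mk.injEq] at h
  obtain ⟨rfl, rfl⟩ := h
  rfl

/-- Every avoiding CRG is dominated by an extremal one of no larger order. -/
theorem exists_ext {W : Type} {H : SimpleGraph W} {k : ℕ} (hk : 0 < k) (K : CRG (Fin k))
    (hK : Avoids H K) (p : ℝ) :
    ∃ (j : ℕ) (K' : CRG (Fin j)) (x : Fin j → ℝ), 0 < j ∧ j ≤ k ∧ Ext H p K' x ∧
      form K' p x = gfun K' p ∧ gfun K' p ≤ gfun K p := by
  set Tp := Σ j : Fin (k + 1), {K : CRG (Fin j) // Avoids H K ∧ 0 < j.val} with hTp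
  haveI : Nonempty Tp := ⟨⟨⟨k, by omega⟩, K, hK, hk⟩⟩
  set f : Tp → ℝ := fun t => gfun t.2.1 p with hf
  obtain ⟨t0, ht0⟩ := Finite.exists_min f
  have hex : ∃ j : ℕ, ∃ t : Tp, t.1.val = j ∧ f t ≤ f t0 := ⟨_, t0, rfl, le_rfl⟩
  obtain ⟨t1, h1, h2⟩ := Nat.find_spec hex
  set j0 := Nat.find hex with hj0
  have hmin := fun j hj => Nat.find_min hex (m := j) hj
  obtain ⟨⟨j, hjk⟩, K', hK', hjpos⟩ := t1
  simp only at h1
  obtain rfl : j = j0 := h1
  simp only at hjpos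
  haveI : Nonempty (Fin j0) := ⟨⟨0, hjpos⟩⟩
  obtain ⟨x, hx, hxmin⟩ := exists_min_form K' p
  have hg := gfun_eq hx hxmin
  have key : ∀ (V' : Type) [Fintype V'] (K'' : CRG V') (x' : V' → ℝ),
      Fintype.card V' ≤ k → Avoids H K'' → Simp x' →
      ∃ t : Tp, t.1.val = Fintype.card V' ∧ f t ≤ form K'' p x' := by
    intro V' _ K'' x' hc hav hs
    haveI := nonempty_of_simp hs
    set e := (Fintype.equivFin V').symm with he
    refine ⟨⟨⟨Fintype.card V', by omega⟩, K''.comap e, avoids_comap e.injective hav,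
      Fintype.card_pos⟩, rfl, ?_⟩
    have hs' : Simp (x' ∘ e) := ⟨fun i => hs.1 _, by
      have := e.sum_comp x'
      simp only [Function.comp]
      rw [this]; exact hs.2⟩
    have := gfun_le (K''.comap e) p hs'
    rw [form_comap_equiv] at this
    exact this
  refine ⟨j0, K', x, hjpos, by omega, ⟨hK', hx, ?_, ?_⟩, hg.symm, ?_⟩
  · intro V' _ K'' x' hc hav hs
    rw [Fintype.card_fin] at hc
    obtain ⟨t, -, ht⟩ := key V' K'' x' (by omega) hav hs
    calc form K' p x = gfun K' p := hg.symm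
      _ ≤ f t0 := h2
      _ ≤ f t := ht0 t
      _ ≤ _ := ht
  · intro V' _ K'' x' hc hav hs
    rw [Fintype.card_fin] at hc
    obtain ⟨t, ht', ht⟩ := key V' K'' x' (by omega) hav hs
    have h3 := hmin (Fintype.card V') hc
    push Not at h3
    calc form K' p x = gfun K' p := hg.symm
      _ ≤ f t0 := h2
      _ < f t := h3 t ht'
      _ ≤ _ := ht
  · calc gfun K' p ≤ f t0 := h2
      _ ≤ f ⟨⟨k, by omega⟩, K, hK, hk⟩ := ht0 _
      _ = gfun K p := rfl

theorem gfun_nonneg {V : Type} [Fintype V] (K : CRG V) {p : ℝ} (h0 : 0 ≤ p) (h1 : p ≤ 1) :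
    0 ≤ gfun K p := by
  unfold gfun
  apply Real.sInf_nonneg
  rintro e ⟨u, hu, _, rfl⟩
  exact form_nonneg K h0 h1 hu

theorem ed_le {W : Type} (H : SimpleGraph W) {p : ℝ} (h0 : 0 ≤ p) (h1 : p ≤ 1) {k : ℕ}
    (K : CRG (Fin k)) (hk : 0 < k) (hK : Avoids H K) : ed H p ≤ gfun K p :=
  csInf_le ⟨0, by rintro e ⟨k, K, _, _, rfl⟩; exact gfun_nonneg K h0 h1⟩ ⟨k, K, hk, hK, rfl⟩

theorem edN_le {W : Type} (H : SimpleGraph W) {p : ℝ} (h0 : 0 ≤ p) (h1 : p ≤ 1) {k N : ℕ}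
    (K : CRG (Fin k)) (hk : 0 < k) (hkN : k ≤ N) (hK : Avoids H K) : edN H N p ≤ gfun K p :=
  csInf_le ⟨0, by rintro e ⟨k, K, _, _, _, rfl⟩; exact gfun_nonneg K h0 h1⟩ ⟨k, K, hk, hkN, hK, rfl⟩

/-- bounded order suffices for `1/4 < α ≤ p ≤ 1/2` -/
theorem edN_eq_half (W : Type) [Fintype W] (α : ℝ) (hα : 1 / 4 < α) : ∃ N : ℕ,
    ∀ (H : SimpleGraph W) (p : ℝ), α ≤ p → p ≤ 1 / 2 → edN H N p = ed H p := by
  obtain ⟨N0, hN0⟩ := Ext.bounded W α hα
  refine ⟨N0, fun H p hp h1 => ?_⟩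
  have h0 : 0 ≤ p := by linarith
  have h1' : p ≤ 1 := by linarith
  have dom : ∀ (k : ℕ) (K : CRG (Fin k)), 0 < k → Avoids H K →
      ∃ (j : ℕ) (K' : CRG (Fin j)), 0 < j ∧ j ≤ N0 ∧ Avoids H K' ∧ gfun K' p ≤ gfun K p := by
    intro k K hk hK
    obtain ⟨j, K', x, hj, _, hext, _, hle⟩ := exists_ext hk K hK p
    have := hN0 (Fin j) H p K' x hp h1 hext
    rw [Fintype.card_fin] at this
    exact ⟨j, K', hj, this, hext.avoid, hle⟩
  by_cases hne : ∃ (k : ℕ) (K : CRG (Fin k)), 0 < k ∧ Avoids H K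
  · obtain ⟨k, K, hk, hK⟩ := hne
    obtain ⟨j, K', hj, hjN, hK', _⟩ := dom k K hk hK
    apply le_antisymm
    · refine le_csInf ⟨_, k, K, hk, hK, rfl⟩ ?_
      rintro e ⟨k, K, hk, hK, rfl⟩
      obtain ⟨j, K', hj, hjN, hK', hle⟩ := dom k K hk hK
      exact (edN_le H h0 h1' K' hj hjN hK').trans hle
    · refine le_csInf ⟨_, j, K', hj, hjN, hK', rfl⟩ ?_
      rintro e ⟨k, K, hk, _, hK, rfl⟩
      exact ed_le H h0 h1' K hk hK
  · push Not at hne
    unfold ed edN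
    congr 1
    ext e
    constructor
    · rintro ⟨k, K, hk, _, hK, rfl⟩; exact absurd hK (hne k K hk)
    · rintro ⟨k, K, hk, hK, rfl⟩; exact absurd hK (hne k K hk)

end

end Pool.Agent.Crg
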