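import Pool.Agent.Crg.Exist

set_option autoImplicit false

namespace Pool.Agent.Crg

open scoped BigOperators
open Finset

section
open Classical

/-- swap the colors -/
def CRG.swap {V : Type} (K : CRG V) : CRG V where
  black v := !K.black v
  col u v := 2 - K.col u v
  symm u v := by rw [K.symm]

theorem swap_swap {V : Type} (K : CRG V) : K.swap.swap = K := by
  obtain ⟨b, c, s⟩ := K
  simp only [CRG.swap, Bool.not_not, CRG.mk.injEq, true_and]
  funext u v
  generalize c u v = d
  fin_cases d <;> rfl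

theorem isHom_swap {W V : Type} {H : SimpleGraph W} {K : CRG V} {φ : W → V}
    (h : IsHom H K φ) : IsHom Hᶜ K.swap φ := by
  intro u v huv
  obtain ⟨h1, h2⟩ := h u v huv
  have e : Hᶜ.Adj u v ↔ ¬ H.Adj u v := by
    rw [SimpleGraph.compl_adj]; exact ⟨fun a => a.2, fun a => ⟨huv, a⟩⟩
  rw [e]
  have c0 : ∀ d : Fin 3, 2 - d ≠ 0 ↔ d ≠ 2 := by decide
  have c2 : ∀ d : Fin 3, 2 - d ≠ 2 ↔ d ≠ 0 := by decide
  constructor
  · intro ha
    rcases h2 ha with ⟨a, b⟩ | ⟨a, b⟩
    · exact Or.inl ⟨a, by simp [CRG.swap, b]⟩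
    · exact Or.inr ⟨a, (c0 _).2 b⟩
  · intro ha
    rw [not_not] at ha
    rcases h1 ha with ⟨a, b⟩ | ⟨a, b⟩
    · exact Or.inl ⟨a, by simp [CRG.swap, b]⟩
    · exact Or.inr ⟨a, (c2 _).2 b⟩

theorem avoids_swap {W V : Type} {H : SimpleGraph W} {K : CRG V} (h : Avoids H K) :
    Avoids Hᶜ K.swap := by
  rintro ⟨φ, hφ⟩
  have := isHom_swap hφ
  rw [compl_compl, swap_swap] at this
  exact h ⟨φ, this⟩

theorem mat_swap {V : Type} (K : CRG V) (p : ℝ) (i j : V) :
    mat K.swap (1 - p) i j = mat K p i j := by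
  unfold mat
  by_cases h : i = j
  · subst h
    rw [if_pos rfl, if_pos rfl]
    by_cases hb : K.black i = true
    · rw [if_pos hb, if_neg (show ¬ K.swap.black i = true by simp [CRG.swap, hb])]
    · rw [if_neg hb, if_pos (show K.swap.black i = true by simpa [CRG.swap] using hb)]
      ring
  · rw [if_neg h, if_neg h]
    have c0 : K.swap.col i j = 0 ↔ K.col i j = 2 := by
      show 2 - K.col i j = 0 ↔ _
      generalize K.col i j = d
      revert d; decide
    have c2 : K.swap.col i j = 2 ↔ K.col i j = 0 := by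
      show 2 - K.col i j = 2 ↔ _
      generalize K.col i j = d
      revert d; decide
    by_cases h0 : K.col i j = 0
    · rw [if_pos h0, if_neg (fun e => by rw [c0, h0] at e; exact absurd e (by decide)),
        if_pos (c2.2 h0)]
      ring
    · rw [if_neg h0]
      by_cases h2 : K.col i j = 2
      · rw [if_pos h2, if_pos (c0.2 h2)]
      · rw [if_neg h2, if_neg (fun e => h2 (c0.1 e)), if_neg (fun e => h0 (c2.1 e))]

theorem gfun_swap {V : Type} [Fintype V] (K : CRG V) (p : ℝ) :
    gfun K.swap (1 - p) = gfun K p := by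
  unfold gfun form
  simp only [mat_swap]

theorem ed_compl {W : Type} (H : SimpleGraph W) (p : ℝ) : ed Hᶜ (1 - p) = ed H p := by
  unfold ed
  congr 1
  ext e
  constructor
  · rintro ⟨k, K, hk, hK, rfl⟩
    refine ⟨k, K.swap, hk, ?_, ?_⟩
    · have := avoids_swap hK; rwa [compl_compl] at this
    · have := gfun_swap K (1 - p)
      rw [sub_sub_cancel] at this
      exact this.symm
  · rintro ⟨k, K, hk, hK, rfl⟩
    exact ⟨k, K.swap, hk, avoids_swap hK, (gfun_swap K p).symm⟩

theorem edN_compl {W : Type} (H : SimpleGraph W) (N : ℕ) (p : ℝ) :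
    edN Hᶜ N (1 - p) = edN H N p := by
  unfold edN
  congr 1
  ext e
  constructor
  · rintro ⟨k, K, hk, hkN, hK, rfl⟩
    refine ⟨k, K.swap, hk, hkN, ?_, ?_⟩
    · have := avoids_swap hK; rwa [compl_compl] at this
    · have := gfun_swap K (1 - p)
      rw [sub_sub_cancel] at this
      exact this.symm
  · rintro ⟨k, K, hk, hkN, hK, rfl⟩
    exact ⟨k, K.swap, hk, hkN, avoids_swap hK, (gfun_swap K p).symm⟩

/-- **Bounded order suffices away from the ends.** -/
theorem edN_eq (W : Type) [Fintype W] (α : ℝ) (hα : 1 / 4 < α) : ∃ N : ℕ,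
    ∀ (H : SimpleGraph W) (p : ℝ), α ≤ p → p ≤ 1 - α → edN H N p = ed H p := by
  obtain ⟨N, hN⟩ := edN_eq_half W α hα
  refine ⟨N, fun H p h1 h2 => ?_⟩
  rcases le_total p (1 / 2) with h | h
  · exact hN H p h1 h
  · have := hN Hᶜ (1 - p) (by linarith) (by linarith)
    rwa [edN_compl, ed_compl] at this

theorem mat_affine {V : Type} (K : CRG V) (a b s t : ℝ) (hst : s + t = 1) (i j : V) :
    mat K (s * a + t * b) i j = s * mat K a i j + t * mat K b i j := by
  unfold mat
  split_ifs
  · calc 1 - (s * a + t * b) = (s + t) - (s * a + t * b) := by rw [hst]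
      _ = _ := by ring
  · ring
  · ring
  · calc 1 - (s * a + t * b) = (s + t) - (s * a + t * b) := by rw [hst]
      _ = _ := by ring
  · ring

theorem form_affine {V : Type} [Fintype V] (K : CRG V) (a b s t : ℝ) (hst : s + t = 1)
    (u : V → ℝ) : form K (s * a + t * b) u = s * form K a u + t * form K b u := by
  unfold form
  rw [Finset.mul_sum, Finset.mul_sum, ← Finset.sum_add_distrib]
  refine Finset.sum_congr rfl fun i _ => ?_
  rw [Finset.mul_sum, Finset.mul_sum, ← Finset.sum_add_distrib]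
  refine Finset.sum_congr rfl fun j _ => ?_
  rw [mat_affine K a b s t hst]; ring

theorem gfun_concave {V : Type} [Fintype V] [Nonempty V] (K : CRG V) {a b s t : ℝ} (hs : 0 ≤ s)
    (ht : 0 ≤ t) (hst : s + t = 1) :
    s * gfun K a + t * gfun K b ≤ gfun K (s * a + t * b) := by
  obtain ⟨x, hx, hmin⟩ := exists_min_form K (s * a + t * b)
  rw [gfun_eq hx hmin, form_affine K a b s t hst]
  have h1 := gfun_le K a hx
  have h2 := gfun_le K b hx
  exact add_le_add (mul_le_mul_of_nonneg_left h1 hs) (mul_le_mul_of_nonneg_left h2 ht)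

theorem edN_concave {W : Type} (H : SimpleGraph W) (N : ℕ) {a b s t : ℝ} (ha : 0 ≤ a) (ha' : a ≤ 1)
    (hb : 0 ≤ b) (hb' : b ≤ 1) (hs : 0 ≤ s) (ht : 0 ≤ t) (hst : s + t = 1) :
    s * edN H N a + t * edN H N b ≤ edN H N (s * a + t * b) := by
  by_cases hne : ∃ (k : ℕ) (K : CRG (Fin k)), 0 < k ∧ k ≤ N ∧ Avoids H K
  · obtain ⟨k, K, hk, hkN, hK⟩ := hne
    refine le_csInf ⟨_, k, K, hk, hkN, hK, rfl⟩ ?_
    rintro e ⟨k, K, hk, hkN, hK, rfl⟩
    have : Nonempty (Fin k) := ⟨⟨0, hk⟩⟩
    refine le_trans ?_ (gfun_concave K hs ht hst)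
    exact add_le_add (mul_le_mul_of_nonneg_left (edN_le H ha ha' K hk hkN hK) hs)
      (mul_le_mul_of_nonneg_left (edN_le H hb hb' K hk hkN hK) ht)
  · push Not at hne
    have : ∀ p, edN H N p = 0 := by
      intro p
      unfold edN
      convert Real.sInf_empty
      ext e
      simp only [Set.mem_setOf_eq, Set.mem_empty_iff_false, iff_false]
      rintro ⟨k, K, hk, hkN, hK, _⟩
      exact hne k K hk hkN hK
    rw [this, this, this]; simp

/-- The equality of Q1 holds if the edit distance function has a maximiser in `(1/4, 3/4)`. -/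
theorem sup_eq {W : Type} [Fintype W] (H : SimpleGraph W) {p : ℝ} (h1 : 1 / 4 < p) (h2 : p < 3 / 4)
    (hmax : ∀ q ∈ Set.Icc (0 : ℝ) 1, ed H q ≤ ed H p) :
    ∃ N : ℕ, sSup (edN H N '' Set.Icc 0 1) = sSup (ed H '' Set.Icc 0 1) := by
  obtain ⟨α, hα, hα2⟩ : ∃ α, 1 / 4 < α ∧ α < min p (1 - p) :=
    exists_between (lt_min h1 (by linarith))
  have hα3 := lt_of_lt_of_le hα2 (min_le_left _ _)
  have hα4 := lt_of_lt_of_le hα2 (min_le_right _ _)
  obtain ⟨N, hN⟩ := edN_eq W α hα
  have hp01 : p ∈ Set.Icc (0 : ℝ) 1 := ⟨by linarith, by linarith⟩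
  have hle : ∀ q ∈ Set.Icc (0 : ℝ) 1, edN H N q ≤ ed H p := by
    intro q hq
    by_cases hq1 : α ≤ q
    · by_cases hq2 : q ≤ 1 - α
      · rw [hN H q hq1 hq2]; exact hmax q hq
      · push Not at hq2
        -- 1 - α is between p and q
        have hd : 0 < q - p := by linarith
        set s := (1 - α - p) / (q - p) with hs
        have hs0 : 0 < s := div_pos (by linarith) hd
        have hs1 : s < 1 := (div_lt_one hd).2 (by linarith)
        have e : s * q + (1 - s) * p = 1 - α := by
          have : s * (q - p) = 1 - α - p := by rw [hs]; field_simp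
          linarith
        have hc := edN_concave H N hq.1 hq.2 hp01.1 hp01.2 hs0.le (by linarith : 0 ≤ 1 - s) (by ring)
        rw [e, hN H (1 - α) (by linarith) le_rfl, hN H p hα3.le (by linarith)] at hc
        have hm := hmax (1 - α) ⟨by linarith, by linarith⟩
        have h3 : s * edN H N q ≤ s * ed H p := by linarith
        exact le_of_mul_le_mul_left h3 hs0
    · push Not at hq1
      have hd : 0 < p - q := by linarith
      set s := (p - α) / (p - q) with hs
      have hs0 : 0 < s := div_pos (by linarith) hd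
      have hs1 : s < 1 := (div_lt_one hd).2 (by linarith)
      have e : s * q + (1 - s) * p = α := by
        have : s * (p - q) = p - α := by rw [hs]; field_simp
        linarith
      have hc := edN_concave H N hq.1 hq.2 hp01.1 hp01.2 hs0.le (by linarith : 0 ≤ 1 - s) (by ring)
      rw [e, hN H α le_rfl (by linarith), hN H p hα3.le (by linarith)] at hc
      have hm := hmax α ⟨by linarith, by linarith⟩
      have h3 : s * edN H N q ≤ s * ed H p := by linarith
      exact le_of_mul_le_mul_left h3 hs0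
  have e1 : sSup (ed H '' Set.Icc 0 1) = ed H p := by
    apply le_antisymm
    · exact csSup_le ⟨_, p, hp01, rfl⟩ (by rintro _ ⟨q, hq, rfl⟩; exact hmax q hq)
    · exact le_csSup ⟨ed H p, by rintro _ ⟨q, hq, rfl⟩; exact hmax q hq⟩ ⟨p, hp01, rfl⟩
  have e2 : sSup (edN H N '' Set.Icc 0 1) = ed H p := by
    apply le_antisymm
    · exact csSup_le ⟨_, p, hp01, rfl⟩ (by rintro _ ⟨q, hq, rfl⟩; exact hle q hq)
    · have : edN H N p = ed H p := hN H p hα3.le (by linarith)
      rw [← this]
      exact le_csSup ⟨ed H p, by rintro _ ⟨q, hq, rfl⟩; exact hle q hq⟩ ⟨p, hp01, rfl⟩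
  exact ⟨N, by rw [e1, e2]⟩

end

end Pool.Agent.Crg
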