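import Pool.Agent.Crg.Basic

set_option autoImplicit false

namespace Pool.Agent.Crg

open scoped BigOperators
open Finset

section
open Classical

variable {W V : Type} [Fintype V] {H : SimpleGraph W} {p : ℝ} {K : CRG V} {x : V → ℝ}

theorem bil_single (K : CRG V) (p : ℝ) (i j : V) :
    bil K p (Pi.single i 1) (Pi.single j 1) = mat K p i j := by
  unfold bil
  simp [Pi.single_apply]

theorem form_sub_smul (K : CRG V) (p t : ℝ) (u v : V → ℝ) :
    form K p (u - t • v) = form K p u - 2 * t * bil K p u v + t ^ 2 * form K p v := by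
  have : u - t • v = u + (-t) • v := by rw [neg_smul, sub_eq_add_neg]
  rw [this, form_add_smul, bil_symm K p v u]; ring

theorem Ext.no_black_edge (h : Ext H p K x) (h1 : p ≤ 1 / 2) {i j : V} (hij : i ≠ j) :
    K.col i j ≠ 2 := by
  intro hc
  have hw : ∑ k, (Pi.single i 1 - (1 : ℝ) • Pi.single j 1 : V → ℝ) k = 0 := by
    simp [Pi.single_apply]
  have hw0 : (Pi.single i 1 - (1 : ℝ) • Pi.single j 1 : V → ℝ) ≠ 0 := by
    intro h0
    have := congrFun h0 i
    simp [Pi.single_apply, hij] at this
  have := h.form_pos hw hw0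
  rw [form_sub_smul, form_eq_bil, form_eq_bil, bil_single, bil_single, bil_single] at this
  have e : mat K p i j = 1 - p := by
    unfold mat; rw [if_neg hij, hc]; simp
  have a := mat_le K h1 i i
  have b := mat_le K h1 j j
  rw [e] at this
  linarith

theorem Ext.white_white (h : Ext H p K x) (h1 : p ≤ 1 / 2) {i j : V} (hij : i ≠ j)
    (hi : K.black i = false) (hj : K.black j = false) : K.col i j = 1 := by
  by_contra hc
  have hc2 := h.no_black_edge h1 hij
  have hc0 : K.col i j = 0 := by
    generalize K.col i j = c at *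
    fin_cases c <;> simp_all
  have hw : ∑ k, (Pi.single i 1 - (1 : ℝ) • Pi.single j 1 : V → ℝ) k = 0 := by
    simp [Pi.single_apply]
  have hw0 : (Pi.single i 1 - (1 : ℝ) • Pi.single j 1 : V → ℝ) ≠ 0 := by
    intro h0
    have := congrFun h0 i
    simp [Pi.single_apply, hij] at this
  have := h.form_pos hw hw0
  rw [form_sub_smul, form_eq_bil, form_eq_bil, bil_single, bil_single, bil_single] at this
  have e : mat K p i j = p := by
    unfold mat; rw [if_neg hij, hc0]; simp
  have a : mat K p i i = p := by unfold mat; simp [hi]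
  have b : mat K p j j = p := by unfold mat; simp [hj]
  rw [e, a, b] at this
  linarith

theorem Ext.white_gray (h : Ext H p K x) (h0 : 0 < p) (h1 : p ≤ 1 / 2) {y v : V} (hv : y ≠ v)
    (hy : K.black y = false) : K.col y v = 1 := by
  by_contra hc
  set R : Finset V := Finset.univ.filter (fun v => v ≠ y ∧ K.col y v ≠ 1) with hR
  have hvR : v ∈ R := by simp [hR, hv.symm, hc]
  have hcol : ∀ u ∈ R, K.col y u = 0 := by
    intro u hu
    have hu' : u ≠ y ∧ K.col y u ≠ 1 := by simpa [hR] using hu
    have hc2 := h.no_black_edge h1 hu'.1.symm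
    have h3 := hu'.2
    generalize K.col y u = c at *
    fin_cases c <;> simp_all
  have hmat : ∀ u ∈ R, mat K p y u = p := by
    intro u hu
    have hu' : u ≠ y ∧ K.col y u ≠ 1 := by simpa [hR] using hu
    unfold mat; rw [if_neg hu'.1.symm, hcol u hu]; simp
  set X := ∑ u ∈ R, x u with hX
  set xR : V → ℝ := fun u => if u ∈ R then x u else 0 with hxR
  have hyR : y ∉ R := by simp [hR]
  have hXpos : 0 < X := Finset.sum_pos (fun u _ => h.pos u) ⟨v, hvR⟩
  have hsum : ∑ u, xR u = X := by
    simp [hxR, hX]
  have hw : ∑ k, (xR - X • Pi.single y 1 : V → ℝ) k = 0 := by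
    simp only [Pi.sub_apply, Finset.sum_sub_distrib, hsum, Pi.smul_apply, Pi.single_apply,
      smul_eq_mul, mul_ite, mul_one, mul_zero, Finset.sum_ite_eq', Finset.mem_univ, if_true, sub_self]
  have hw0 : (xR - X • Pi.single y 1 : V → ℝ) ≠ 0 := by
    intro h0
    have := congrFun h0 y
    simp [hxR, hyR] at this
    linarith
  have hpos := h.form_pos hw hw0
  rw [form_sub_smul] at hpos
  have e1 : form K p (Pi.single y 1 : V → ℝ) = p := by
    rw [form_eq_bil, bil_single]; unfold mat; simp [hy]
  have e2 : bil K p xR (Pi.single y 1) = p * X := by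
    rw [bil_symm, bil_eq_row]
    simp only [Pi.single_apply, ite_mul, one_mul, zero_mul, Finset.sum_ite_eq', Finset.mem_univ,
      if_true]
    unfold row
    have : ∀ j, mat K p y j * xR j = if j ∈ R then p * x j else 0 := by
      intro j
      by_cases hj : j ∈ R
      · simp only [hxR, if_pos hj, hmat j hj]
      · simp only [hxR, if_neg hj, mul_zero]
    rw [Finset.sum_congr rfl fun j _ => this j]
    simp [hX, Finset.mul_sum]
  have hrowy : row K p x y = p * x y + p * X := by
    unfold row
    have : ∀ j, mat K p y j * x j = (if j = y then p * x y else 0) + (if j ∈ R then p * x j else 0) := by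
      intro j
      by_cases hj : j = y
      · subst hj
        rw [if_pos rfl, if_neg hyR, add_zero]; unfold mat; simp [hy]
      · rw [if_neg hj, zero_add]
        by_cases hjR : j ∈ R
        · rw [if_pos hjR, hmat j hjR]
        · rw [if_neg hjR]
          have : K.col y j = 1 := by
            by_contra hh
            exact hjR (by simp [hR, hj, hh])
          unfold mat; rw [if_neg (Ne.symm hj), this]; simp
    rw [Finset.sum_congr rfl fun j _ => this j, Finset.sum_add_distrib]
    simp [hX, Finset.mul_sum]
  have e3 : form K p xR ≤ p * X ^ 2 := by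
    have hrow : ∀ v ∈ R, row K p xR v ≤ p * X := by
      intro v hv
      have hvy : v ≠ y := fun e => hyR (e ▸ hv)
      have h2 : row K p x v = row K p x y := by rw [h.row_eq, h.row_eq]
      have h3 : row K p xR v + p * x y ≤ row K p x v := by
        unfold row
        have : p * x y = ∑ j, if j = y then p * x y else 0 := by simp
        rw [this, ← Finset.sum_add_distrib]
        refine Finset.sum_le_sum fun j _ => ?_
        by_cases hj : j = y
        · subst hj
          rw [if_pos rfl]
          have : xR j = 0 := by simp [hxR, hyR]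
          rw [this, mul_zero, zero_add]
          have : mat K p v j = p := by rw [mat_symm, hmat v hv]
          rw [this]
        · rw [if_neg hj, add_zero]
          have hm := mat_nonneg K h0.le (by linarith) v j
          have hx := (h.pos j).le
          by_cases hjR : j ∈ R
          · simp [hxR, hjR]
          · simp only [hxR, if_neg hjR, mul_zero]; positivity
      rw [h2, hrowy] at h3
      linarith
    rw [form_eq_bil, bil_eq_row]
    calc ∑ i, xR i * row K p xR i ≤ ∑ i, xR i * (p * X) := by
          refine Finset.sum_le_sum fun i _ => ?_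
          by_cases hi : i ∈ R
          · exact mul_le_mul_of_nonneg_left (hrow i hi) (by simp [hxR, hi, (h.pos i).le])
          · simp [hxR, hi]
      _ = p * X ^ 2 := by rw [← Finset.sum_mul, hsum]; ring
  rw [e1, e2] at hpos
  nlinarith

/-- the gray graph -/
def gray (K : CRG V) : SimpleGraph V where
  Adj i j := i ≠ j ∧ K.col i j = 1
  symm := ⟨fun i j h => ⟨h.1.symm, by rw [K.symm]; exact h.2⟩⟩
  loopless := ⟨fun i h => h.1 rfl⟩

noncomputable def adj (K : CRG V) (i j : V) : ℝ := if (gray K).Adj i j then 1 else 0

omit [Fintype V] in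
theorem clique_lt [Fintype W] (h : Avoids H K) (C : Finset V)
    (hC : (gray K).IsClique (C : Set V)) : C.card < Fintype.card W := by
  by_contra hle
  push Not at hle
  have : Fintype.card W ≤ Fintype.card C := by simpa using hle
  obtain ⟨f⟩ := Function.Embedding.nonempty_of_card_le this
  refine h ⟨fun w => (f w).1, fun u v huv => ?_⟩
  have hne : (f u).1 ≠ (f v).1 := fun e => huv (f.injective (Subtype.ext e))
  have hadj : (gray K).Adj (f u).1 (f v).1 := hC (f u).2 (f v).2 hne
  have hcol := hadj.2
  refine ⟨fun _ => Or.inr ⟨hne, by rw [hcol]; decide⟩, fun _ => Or.inr ⟨hne, by rw [hcol]; decide⟩⟩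

theorem Ext.mat_black (h : Ext H p K x) (h1 : p ≤ 1 / 2) {i j : V} (hi : K.black i = true) :
    mat K p i j = p - p * adj K i j + (if i = j then 1 - 2 * p else 0) := by
  unfold mat adj
  by_cases hij : i = j
  · subst hij
    rw [if_pos rfl, if_pos hi, if_neg (SimpleGraph.irrefl _), if_pos rfl]; ring
  · rw [if_neg hij, if_neg hij]
    have h2 := h.no_black_edge h1 hij
    by_cases hc : K.col i j = 1
    · rw [if_pos (show (gray K).Adj i j from ⟨hij, hc⟩), hc]; simp
    · rw [if_neg (show ¬ (gray K).Adj i j from fun h => hc h.2)]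
      have hc0 : K.col i j = 0 := by
        generalize K.col i j = c at *
        fin_cases c <;> simp_all
      rw [hc0]; simp

theorem Ext.test (h : Ext H p K x) (h1 : p ≤ 1 / 2) {w : V → ℝ}
    (hb : ∀ i, w i ≠ 0 → K.black i = true) (hw : ∑ i, w i = 0) (hw0 : w ≠ 0) :
    p * ∑ i, w i * ∑ j, adj K i j * w j < (1 - 2 * p) * ∑ i, w i ^ 2 := by
  have hpos := h.form_pos hw hw0
  have : form K p w = -(p * ∑ i, w i * ∑ j, adj K i j * w j) + (1 - 2 * p) * ∑ i, w i ^ 2 := by
    unfold form
    have key : ∀ i, ∑ j, w i * mat K p i j * w j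
        = -(p * (w i * ∑ j, adj K i j * w j)) + (1 - 2 * p) * w i ^ 2 := by
      intro i
      by_cases hi : w i = 0
      · simp [hi]
      · have hbi := hb i hi
        have : ∀ j, w i * mat K p i j * w j = p * w i * w j - p * w i * (adj K i j * w j)
            + (if i = j then (1 - 2 * p) * w i * w j else 0) := by
          intro j
          rw [h.mat_black h1 hbi]
          split_ifs <;> ring
        rw [Finset.sum_congr rfl fun j _ => this j, Finset.sum_add_distrib,
          Finset.sum_sub_distrib, ← Finset.mul_sum, hw, ← Finset.mul_sum]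
        simp only [Finset.sum_ite_eq, Finset.mem_univ, if_true]
        ring
    rw [Finset.sum_congr rfl fun i _ => key i, Finset.sum_add_distrib, Finset.sum_neg_distrib,
      ← Finset.mul_sum, ← Finset.mul_sum]
  rw [this] at hpos
  linarith

/-- crispness -/
theorem Ext.crisp (h : Ext H p K x) (hq : 1 / 4 ≤ p) (h1 : p ≤ 1 / 2) {v : V} {S1 S2 : Finset V}
    (hvb : K.black v = true) (h1b : ∀ s ∈ S1, K.black s = true) (h2b : ∀ s ∈ S2, K.black s = true)
    (hind : ∀ s ∈ S1 ∪ S2, ∀ t ∈ S1 ∪ S2, ¬ (gray K).Adj s t)
    (hv1 : ∀ s ∈ S1, (gray K).Adj v s) (hv2 : ∀ s ∈ S2, ¬ (gray K).Adj v s)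
    (hv : v ∉ S2) (hdis : Disjoint S1 S2) (hc1 : S1.card = 5) (hc2 : S2.card = 49) : False := by
  have hvS1 : v ∉ S1 := fun hh => (SimpleGraph.irrefl _) (hv1 v hh)
  have hd : ∀ i, i ∈ S1 → i ∉ S2 := fun i hi hi' => (Finset.disjoint_left.1 hdis hi hi')
  set w : V → ℝ := fun i => (if i = v then 2 else 0) + (if i ∈ S1 then 1 else 0)
    + (if i ∈ S2 then -1/7 else 0) with hw
  have wv : w v = 2 := by simp [hw, hvS1, hv]
  have w1 : ∀ i ∈ S1, w i = 1 := by
    intro i hi
    have : i ≠ v := fun e => hvS1 (e ▸ hi)
    simp [hw, hi, this, hd i hi]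
  have w2 : ∀ i ∈ S2, w i = -1/7 := by
    intro i hi
    have h2 : i ≠ v := fun e => hv (e ▸ hi)
    have h3 : i ∉ S1 := fun hh => hd i hh hi
    simp [hw, hi, h2, h3]
  have w0 : ∀ i, i ≠ v → i ∉ S1 → i ∉ S2 → w i = 0 := by
    intro i a b c
    simp [hw, a, b, c]
  have hsum : ∑ i, w i = 0 := by
    simp only [hw, Finset.sum_add_distrib, Finset.sum_ite_eq', Finset.mem_univ, if_true,
      Finset.sum_ite_mem, Finset.univ_inter, Finset.sum_const, hc1, hc2, nsmul_eq_mul]
    norm_num
  have hsq : ∑ i, w i ^ 2 = 10 := by
    have : ∀ i, w i ^ 2 = (if i = v then 4 else 0) + (if i ∈ S1 then 1 else 0)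
        + (if i ∈ S2 then 1/49 else 0) := by
      intro i
      by_cases a : i = v
      · subst a; rw [wv]; simp [hvS1, hv]; norm_num
      · by_cases b : i ∈ S1
        · rw [w1 i b]; simp [a, b, hd i b]
        · by_cases c : i ∈ S2
          · rw [w2 i c]; simp [a, b, c]; norm_num
          · rw [w0 i a b c]; simp [a, b, c]
    rw [Finset.sum_congr rfl fun i _ => this i]
    simp only [Finset.sum_add_distrib, Finset.sum_ite_eq', Finset.mem_univ, if_true,
      Finset.sum_ite_mem, Finset.univ_inter, Finset.sum_const, hc1, hc2, nsmul_eq_mul]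
    norm_num
  have hb : ∀ i, w i ≠ 0 → K.black i = true := by
    intro i hi
    by_cases a : i = v
    · subst a; exact hvb
    · by_cases b : i ∈ S1
      · exact h1b i b
      · by_cases c : i ∈ S2
        · exact h2b i c
        · exact absurd (w0 i a b c) hi
  have hw0 : w ≠ 0 := fun e => by
    have := congrFun e v
    rw [wv] at this
    norm_num at this
  have hA : ∑ i, w i * ∑ j, adj K i j * w j = 20 := by
    have inner_v : ∑ j, adj K v j * w j = 5 := by
      have : ∀ j, adj K v j * w j = if j ∈ S1 then 1 else 0 := by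
        intro j
        by_cases b : j ∈ S1
        · rw [w1 j b, if_pos b]; unfold adj; rw [if_pos (hv1 j b)]; ring
        · rw [if_neg b]
          by_cases a : j = v
          · subst a; unfold adj; rw [if_neg (SimpleGraph.irrefl _)]; ring
          · by_cases c : j ∈ S2
            · unfold adj; rw [if_neg (hv2 j c)]; ring
            · rw [w0 j a b c]; ring
      rw [Finset.sum_congr rfl fun j _ => this j]
      simp [hc1]
    have inner_1 : ∀ i ∈ S1, ∑ j, adj K i j * w j = 2 := by
      intro i hi
      have : ∀ j, adj K i j * w j = if j = v then 2 else 0 := by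
        intro j
        by_cases a : j = v
        · subst a; rw [wv, if_pos rfl]; unfold adj; rw [if_pos (hv1 i hi).symm]; ring
        · rw [if_neg a]
          by_cases b : j ∈ S1
          · unfold adj; rw [if_neg (hind i (by simp [hi]) j (by simp [b]))]; ring
          · by_cases c : j ∈ S2
            · unfold adj; rw [if_neg (hind i (by simp [hi]) j (by simp [c]))]; ring
            · rw [w0 j a b c]; ring
      rw [Finset.sum_congr rfl fun j _ => this j]
      simp
    have inner_2 : ∀ i ∈ S2, ∑ j, adj K i j * w j = 0 := by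
      intro i hi
      refine Finset.sum_eq_zero fun j _ => ?_
      by_cases a : j = v
      · subst a; unfold adj; rw [if_neg (fun hh => hv2 i hi hh.symm)]; ring
      · by_cases b : j ∈ S1
        · unfold adj; rw [if_neg (hind i (by simp [hi]) j (by simp [b]))]; ring
        · by_cases c : j ∈ S2
          · unfold adj; rw [if_neg (hind i (by simp [hi]) j (by simp [c]))]; ring
          · rw [w0 j a b c]; ring
    have : ∀ i, w i * ∑ j, adj K i j * w j = (if i = v then 10 else 0) + (if i ∈ S1 then 2 else 0) := by
      intro i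
      by_cases a : i = v
      · subst a; rw [inner_v, wv]; simp [hvS1]; norm_num
      · by_cases b : i ∈ S1
        · rw [inner_1 i b, w1 i b]; simp [a, b]
        · by_cases c : i ∈ S2
          · rw [inner_2 i c]; simp [a, b]
          · rw [w0 i a b c]; simp [a, b]
    rw [Finset.sum_congr rfl fun i _ => this i]
    simp only [Finset.sum_add_distrib, Finset.sum_ite_eq', Finset.mem_univ, if_true,
      Finset.sum_ite_mem, Finset.univ_inter, Finset.sum_const, hc1, nsmul_eq_mul]
    norm_num
  have := h.test h1 hb hsum hw0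
  rw [hA, hsq] at this
  linarith

end

end Pool.Agent.Crg
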